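import Pool.Agent.H47.CP.Core3

set_option autoImplicit false

namespace Pool.H47.CP

variable {K P : Finset (ZMod 5) → Set (Finset (ZMod 31))}

theorem val_two_mul (N : ZMod 5 → ℤ) (r : ZMod 31) :
    val N (2 * r) = val (fun k => N (k + 1)) r := by
  have h5 : ∀ n : ℕ, n < 31 → vl [N 0, N 1, N 2, N 3, N 4] ((2 * n) % 31) =
      vl [N 1, N 2, N 3, N 4, N 0] n := by
    intro n hn
    interval_cases n <;> simp [vl] <;> ring
  have h6 := h5 r.val (ZMod.val_lt r)
  unfold val
  have h7 : (2 * r).val = (2 * r.val) % 31 := by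
    rw [ZMod.val_mul]; rfl
  rw [h7, h6]
  rfl

theorem good_rot (hK : KS K P) {J : Finset (ZMod 5)} {N : ZMod 5 → ℤ}
    (h : Good K P (J.image (· + 1)) N) : Good K P J (fun k => N (k + 1)) := by
  refine ⟨?_, fun F hF x hx y hy z hz => ?_, fun F hF x hx y hy => ?_⟩
  · have := h.1
    show N 1 + N 2 + N 3 + N 4 + N 0 = 0
    linarith
  · have h1 := h.2.1 _ (hK.sig J F hF) (2 * x) (Finset.mem_image_of_mem _ hx) (2 * y)
      (Finset.mem_image_of_mem _ hy) (2 * z) (Finset.mem_image_of_mem _ hz)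
    rw [← mul_sub, ← mul_sub, ← mul_sub, val_two_mul, val_two_mul, val_two_mul] at h1
    exact h1
  · have h1 := h.2.2 _ (hK.sigP J F hF) (2 * x)
      (Finset.mem_image_of_mem _ hx) (2 * y) (Finset.mem_image_of_mem _ hy)
    rw [← mul_sub, val_two_mul] at h1
    exact h1

theorem good_rot_iter (hK : KS K P) (t : ℕ) : ∀ (J : Finset (ZMod 5)) (N : ZMod 5 → ℤ),
    Good K P (J.image (· + (t : ZMod 5))) N → Good K P J (fun k => N (k + (t : ZMod 5))) := by
  induction t with
  | zero => intro J N h; simpa using h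
  | succ t ih =>
    intro J N h
    have e : J.image (· + ((t + 1 : ℕ) : ZMod 5)) = (J.image (· + (t : ZMod 5))).image (· + 1) := by
      rw [Finset.image_image]; congr 1; funext k; simp [add_assoc]
    rw [e] at h
    have h1 := ih J _ (good_rot hK h)
    have e2 : (fun k : ZMod 5 => N (k + ((t + 1 : ℕ) : ZMod 5))) =
        fun k => N (k + (t : ZMod 5) + 1) := by
      funext k; congr 1; push_cast; ring
    rw [e2]; exact h1

theorem good_rot_s (hK : KS K P) (t : ZMod 5) (J : Finset (ZMod 5)) (N : ZMod 5 → ℤ)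
    (h : Good K P (J.image (· + t)) N) : Good K P J (fun k => N (k + t)) := by
  have ht : ((t.val : ℕ) : ZMod 5) = t := ZMod.natCast_zmod_val t
  have := good_rot_iter hK t.val J N
  rw [ht] at this
  exact this h

theorem image_inter_add (s : ZMod 5) (J J' : Finset (ZMod 5)) :
    (J ∩ J').image (· - s) = J.image (· - s) ∩ J'.image (· - s) :=
  Finset.image_inter _ _ (sub_left_injective)

theorem image_sub_card (s : ZMod 5) (J : Finset (ZMod 5)) : (J.image (· - s)).card = J.card :=
  Finset.card_image_of_injective _ sub_left_injective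

theorem shiftKS (hK : KS K P) (s : ZMod 5) :
    KS (fun J => K (J.image (· - s))) (fun J => P (J.image (· - s))) where
  down J F G := hK.down _ F G
  inter J J' F h1 h2 := by rw [image_inter_add]; exact hK.inter _ _ F h1 h2
  mono J J' F hJ hc h := hK.mono _ _ F (Finset.image_subset_image hJ) (by rwa [image_sub_card]) h
  shift J F h := hK.shift _ F h
  sig J F h := by
    have h1 := hK.sig _ F h
    have e : (J.image (· - s)).image (· + 1) = (J.image (· + 1)).image (· - s) := by
      rw [Finset.image_image, Finset.image_image]; congr 1; funext k; simp only [Function.comp]; ring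
    rw [← e]; exact h1
  monoP J J' F hJ hc h := hK.monoP _ _ F (Finset.image_subset_image hJ) (by rwa [image_sub_card]) h
  sigP J F h := by
    have h1 := hK.sigP _ F h
    have e : (J.image (· - s)).image (· + 1) = (J.image (· + 1)).image (· - s) := by
      rw [Finset.image_image, Finset.image_image]; congr 1; funext k; simp only [Function.comp]; ring
    rw [← e]; exact h1
  tor F := by rw [Finset.image_empty]; exact hK.tor F
  nonmax J J' F h hJ hne hc := by
    refine hK.nonmax _ _ F h (Finset.image_subset_image hJ) ?_ (by rwa [image_sub_card])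
    intro he
    exact hne (Finset.image_injective sub_left_injective he)
  par j E w := by
    rw [Finset.image_singleton, Finset.image_empty]
    exact hK.par (j - s) E w
  coc1 j a b := by
    obtain ⟨N, h1, h2, h3, h4⟩ := hK.coc1 (j - s) a b
    refine ⟨N, h1, h2, h3, ?_⟩
    show Good K P (({j} : Finset (ZMod 5)).image (· - s)) N
    rw [Finset.image_singleton]; exact h4
  coc2 J a hJ := by
    obtain ⟨N, h1, h2, h3⟩ := hK.coc2 (J.image (· - s)) a (by rwa [image_sub_card])
    exact ⟨N, h1, h2, h3⟩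
  coc3 J hJ := by
    obtain ⟨N, h1, h2⟩ := hK.coc3 (J.image (· - s)) (by rwa [image_sub_card])
    exact ⟨N, h1, h2⟩

theorem good_mono (hK : KS K P) {J J' : Finset (ZMod 5)} (hJ : J ⊆ J') (hc : J'.card ≤ 3)
    {N : ZMod 5 → ℤ} (h : Good K P J' N) : Good K P J N :=
  ⟨h.1, fun F hF => h.2.1 F (hK.mono J J' F hJ hc hF),
    fun F hF => h.2.2 F (hK.monoP J J' F hJ hc hF)⟩

/-! ### Case A -/

theorem caseA (hK : KS K P) (hA : ∀ (i : ZMod 5) N, Good K P {i} N → 2 * N i = N (i + 1)) : False := by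
  -- cocycles on K {3}
  have g3 : ∀ c ∈ [[0, 0, -3, 1, 2], [0, -3, 0, 1, 2], [(-3 : ℤ), 0, 0, 1, 2]], GoodC K P {3} c := by
    intro c hc
    simp only [List.mem_cons, List.not_mem_nil, or_false] at hc
    rcases hc with rfl | rfl | rfl
    · obtain ⟨N, hN, ha, hb, hg⟩ := hK.coc1 3 0 1
      have h1 : 2 * N 3 = N 4 := hA 3 N hg
      have h2 := hg.1
      refine goodC_of_good hg _ (N 3) (fun h => hN (funext5 ?_ ?_ ?_ ?_ ?_)) ?_ <;>
        first | omega | (simp only [List.map_cons, List.map_nil, List.cons.injEq, and_true]; omega)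
    · obtain ⟨N, hN, ha, hb, hg⟩ := hK.coc1 3 0 2
      have h1 : 2 * N 3 = N 4 := hA 3 N hg
      have h2 := hg.1
      refine goodC_of_good hg _ (N 3) (fun h => hN (funext5 ?_ ?_ ?_ ?_ ?_)) ?_ <;>
        first | omega | (simp only [List.map_cons, List.map_nil, List.cons.injEq, and_true]; omega)
    · obtain ⟨N, hN, ha, hb, hg⟩ := hK.coc1 3 1 2
      have h1 : 2 * N 3 = N 4 := hA 3 N hg
      have h2 := hg.1
      refine goodC_of_good hg _ (N 3) (fun h => hN (funext5 ?_ ?_ ?_ ?_ ?_)) ?_ <;>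
        first | omega | (simp only [List.map_cons, List.map_nil, List.cons.injEq, and_true]; omega)
  have g4 : ∀ c ∈ [[2, 0, 0, -3, 1], [2, 0, -3, 0, 1], [(2 : ℤ), -3, 0, 0, 1]], GoodC K P {4} c := by
    intro c hc
    simp only [List.mem_cons, List.not_mem_nil, or_false] at hc
    rcases hc with rfl | rfl | rfl
    · obtain ⟨N, hN, ha, hb, hg⟩ := hK.coc1 4 1 2
      have h1 : 2 * N 4 = N 0 := hA 4 N hg
      have h2 := hg.1
      refine goodC_of_good hg _ (N 4) (fun h => hN (funext5 ?_ ?_ ?_ ?_ ?_)) ?_ <;>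
        first | omega | (simp only [List.map_cons, List.map_nil, List.cons.injEq, and_true]; omega)
    · obtain ⟨N, hN, ha, hb, hg⟩ := hK.coc1 4 1 3
      have h1 : 2 * N 4 = N 0 := hA 4 N hg
      have h2 := hg.1
      refine goodC_of_good hg _ (N 4) (fun h => hN (funext5 ?_ ?_ ?_ ?_ ?_)) ?_ <;>
        first | omega | (simp only [List.map_cons, List.map_nil, List.cons.injEq, and_true]; omega)
    · obtain ⟨N, hN, ha, hb, hg⟩ := hK.coc1 4 2 3
      have h1 : 2 * N 4 = N 0 := hA 4 N hg
      have h2 := hg.1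
      refine goodC_of_good hg _ (N 4) (fun h => hN (funext5 ?_ ?_ ?_ ?_ ?_)) ?_ <;>
        first | omega | (simp only [List.map_cons, List.map_nil, List.cons.injEq, and_true]; omega)
  have g13 : ∀ c ∈ [[0, 1, 2, -1, -2], [(-3 : ℤ), 0, 0, 1, 2]], GoodC K P {1, 3} c := by
    intro c hc
    simp only [List.mem_cons, List.not_mem_nil, or_false] at hc
    rcases hc with rfl | rfl
    · obtain ⟨N, hN, ha, hg⟩ := hK.coc2 {1, 3} 0 (by decide)
      have h1 : 2 * N 1 = N 2 := hA 1 N (good_mono hK (by decide) (by decide) hg)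
      have h3 : 2 * N 3 = N 4 := hA 3 N (good_mono hK (by decide) (by decide) hg)
      have h2 := hg.1
      refine goodC_of_good hg _ (N 1) (fun h => hN (funext5 ?_ ?_ ?_ ?_ ?_)) ?_ <;>
        first | omega | (simp only [List.map_cons, List.map_nil, List.cons.injEq, and_true]; omega)
    · obtain ⟨N, hN, ha, hg⟩ := hK.coc2 {1, 3} 1 (by decide)
      have h1 : 2 * N 1 = N 2 := hA 1 N (good_mono hK (by decide) (by decide) hg)
      have h3 : 2 * N 3 = N 4 := hA 3 N (good_mono hK (by decide) (by decide) hg)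
      have h2 := hg.1
      refine goodC_of_good hg _ (N 3) (fun h => hN (funext5 ?_ ?_ ?_ ?_ ?_)) ?_ <;>
        first | omega | (simp only [List.map_cons, List.map_nil, List.cons.injEq, and_true]; omega)
  have g24 : ∀ c ∈ [[-2, 0, 1, 2, -1], [(2 : ℤ), -3, 0, 0, 1]], GoodC K P {2, 4} c := by
    intro c hc
    simp only [List.mem_cons, List.not_mem_nil, or_false] at hc
    rcases hc with rfl | rfl
    · obtain ⟨N, hN, ha, hg⟩ := hK.coc2 {2, 4} 1 (by decide)
      have h1 : 2 * N 2 = N 3 := hA 2 N (good_mono hK (by decide) (by decide) hg)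
      have h3 : 2 * N 4 = N 0 := hA 4 N (good_mono hK (by decide) (by decide) hg)
      have h2 := hg.1
      refine goodC_of_good hg _ (N 2) (fun h => hN (funext5 ?_ ?_ ?_ ?_ ?_)) ?_ <;>
        first | omega | (simp only [List.map_cons, List.map_nil, List.cons.injEq, and_true]; omega)
    · obtain ⟨N, hN, ha, hg⟩ := hK.coc2 {2, 4} 2 (by decide)
      have h1 : 2 * N 2 = N 3 := hA 2 N (good_mono hK (by decide) (by decide) hg)
      have h3 : 2 * N 4 = N 0 := hA 4 N (good_mono hK (by decide) (by decide) hg)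
      have h2 := hg.1
      refine goodC_of_good hg _ (N 4) (fun h => hN (funext5 ?_ ?_ ?_ ?_ ?_)) ?_ <;>
        first | omega | (simp only [List.map_cons, List.map_nil, List.cons.injEq, and_true]; omega)
  have g013 : ∀ c ∈ [[(3 : ℤ), 6, 12, -7, -14]], GoodC K P {0, 1, 3} c := by
    intro c hc
    simp only [List.mem_cons, List.not_mem_nil, or_false] at hc
    subst hc
    obtain ⟨N, hN, hg⟩ := hK.coc3 {0, 1, 3} (by decide)
    have h0 : 2 * N 0 = N 1 := hA 0 N (good_mono hK (by decide) (by decide) hg)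
    have h1 : 2 * N 1 = N 2 := hA 1 N (good_mono hK (by decide) (by decide) hg)
    have h3 : 2 * N 3 = N 4 := hA 3 N (good_mono hK (by decide) (by decide) hg)
    have h2 := hg.1
    obtain ⟨k, hk⟩ : ∃ k, N 0 = 3 * k := ⟨-(2 * N 0 + N 3), by omega⟩
    refine goodC_of_good hg _ k (fun h => hN (funext5 ?_ ?_ ?_ ?_ ?_)) ?_ <;>
      first | omega | (simp only [List.map_cons, List.map_nil, List.cons.injEq, and_true]; omega)
  -- chain 2
  have hP : ∃ k : ℕ, k < 31 ∧ fs [k, (k + 11) % 31, (k + 22) % 31] ∈ K {2, 4} := by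
    obtain ⟨w, hw, hwF, he, hm⟩ := ext_step hK (J := ∅) (J' := {4}) (by simp) (by decide)
      (by simp) _ g4 [0, 1, 3, 7, 23] (by decide) (not_mem_P _ g4 _ (by decide) (by decide)) ((hK.tor _).2 T2)
    have h16 : w = 16 := by
      have : w ∈ [0, 1, 3, 7, 16, 23] := by
        have e : exts [[2, 0, 0, -3, 1], [2, 0, -3, 0, 1], [(2 : ℤ), -3, 0, 0, 1]] [0, 1, 3, 7, 23]
          = [0, 1, 3, 7, 16, 23] := by decide
        rwa [e] at he
      simp at this hwF; omega
    subst h16
    obtain ⟨w, hw, hwF, he, hm⟩ := ext_step hK (J := {4}) (J' := {2, 4}) (by decide) (by decide)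
      (by decide) _ g24 [16, 0, 1, 3, 7, 23] (by decide) (not_mem_P _ g24 _ (by decide) (by decide)) hm
    have h27 : w = 27 := by
      have : w ∈ [0, 1, 3, 7, 16, 23, 27] := by
        have e : exts [[-2, 0, 1, 2, -1], [(2 : ℤ), -3, 0, 0, 1]] [16, 0, 1, 3, 7, 23]
          = [0, 1, 3, 7, 16, 23, 27] := by decide
        rwa [e] at he
      simp at this hwF; omega
    subst h27
    exact ⟨16, by norm_num, hK.down _ _ _ hm (by decide) (by decide)⟩
  -- translation invariance
  have htr : ∀ (J : Finset (ZMod 5)) (n : ℕ) (k : ℕ), k < 31 →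
      fs [k, (k + 11) % 31, (k + 22) % 31] ∈ K J →
      fs [(k + n) % 31, ((k + n) % 31 + 11) % 31, ((k + n) % 31 + 22) % 31] ∈ K J := by
    intro J n
    induction n with
    | zero => intro k hk h; rw [Nat.add_zero, Nat.mod_eq_of_lt hk]; exact h
    | succ n ih =>
      intro k hk h
      have h1 := hK.shift J _ (ih k hk h)
      convert h1 using 1
      ext v
      simp only [Finset.mem_image, mem_fs, List.mem_cons, List.not_mem_nil, or_false]
      have aux : ∀ a b : ℕ, (a + 1) % 31 = b % 31 → (a : ZMod 31) + 1 = (b : ZMod 31) := by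
        intro a b h
        have := congrArg (Nat.cast : ℕ → ZMod 31) h
        rw [ZMod.natCast_mod, ZMod.natCast_mod] at this
        push_cast at this
        exact this
      constructor
      · rintro ⟨m, hm, rfl⟩
        rcases hm with rfl | rfl | rfl
        · exact ⟨_, ⟨_, Or.inl rfl, rfl⟩, aux _ _ (by omega)⟩
        · exact ⟨_, ⟨_, Or.inr (Or.inl rfl), rfl⟩, aux _ _ (by omega)⟩
        · exact ⟨_, ⟨_, Or.inr (Or.inr rfl), rfl⟩, aux _ _ (by omega)⟩
      · rintro ⟨u, ⟨m, hm, rfl⟩, rfl⟩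
        rcases hm with rfl | rfl | rfl
        · exact ⟨_, Or.inl rfl, (aux _ _ (by omega)).symm⟩
        · exact ⟨_, Or.inr (Or.inl rfl), (aux _ _ (by omega)).symm⟩
        · exact ⟨_, Or.inr (Or.inr rfl), (aux _ _ (by omega)).symm⟩
  have hP' : ∀ k : ℕ, k < 31 → fs [k, (k + 11) % 31, (k + 22) % 31] ∉ K {0, 1, 3} := by
    intro k hk h
    obtain ⟨m, hm, hmem⟩ := hP
    have h1 := htr {2, 4} (k + 31 - m) m hm hmem
    have e : (m + (k + 31 - m)) % 31 = k := by omega
    rw [e] at h1
    have h2 := hK.inter _ _ _ h h1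
    have e2 : ({0, 1, 3} : Finset (ZMod 5)) ∩ {2, 4} = ∅ := by decide
    rw [e2] at h2
    exact tri_not k hk ((hK.tor _).1 h2)
  -- chain 1
  obtain ⟨w, hw, hwF, he, hm⟩ := ext_step hK (J := ∅) (J' := {3}) (by simp) (by decide)
    (by simp) _ g3 [0, 1, 5, 21, 23] (by decide) (not_mem_P _ g3 _ (by decide) (by decide)) ((hK.tor _).2 T1)
  have h13 : w = 13 := by
    have : w ∈ [0, 1, 5, 13, 21, 23] := by
      have e : exts [[0, 0, -3, 1, 2], [0, -3, 0, 1, 2], [(-3 : ℤ), 0, 0, 1, 2]] [0, 1, 5, 21, 23]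
        = [0, 1, 5, 13, 21, 23] := by decide
      rwa [e] at he
    simp at this hwF; omega
  subst h13
  have hm' : fs [5, 0, 1, 13, 21, 23] ∈ K {3} := by
    have e : fs [5, 0, 1, 13, 21, 23] = fs [13, 0, 1, 5, 21, 23] := by decide
    rw [e]; exact hm
  obtain ⟨w, hw, hwF, hne, he, hm⟩ := par_step hK (j := 3) _ g3 [0, 1, 13, 21, 23] (by decide)
    (not_mem_P _ g3 _ (by decide) (by decide)) 5
    (by norm_num) (by decide) E_card E_not hm'
  have h9 : w = 9 := by
    have : w ∈ [0, 1, 5, 9, 13, 21, 23] := by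
      have e : exts [[0, 0, -3, 1, 2], [0, -3, 0, 1, 2], [(-3 : ℤ), 0, 0, 1, 2]] [0, 1, 13, 21, 23]
        = [0, 1, 5, 9, 13, 21, 23] := by decide
      rwa [e] at he
    simp at this hwF; omega
  subst h9
  obtain ⟨w, hw, hwF, he, hm⟩ := ext_step hK (J := {3}) (J' := {1, 3}) (by decide) (by decide)
    (by decide) _ g13 [9, 0, 1, 13, 21, 23] (by decide) (not_mem_P _ g13 _ (by decide) (by decide)) hm
  have h11 : w = 11 := by
    have : w ∈ [0, 1, 9, 11, 13, 21, 23] := by
      have e : exts [[0, 1, 2, -1, -2], [(-3 : ℤ), 0, 0, 1, 2]] [9, 0, 1, 13, 21, 23]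
        = [0, 1, 9, 11, 13, 21, 23] := by decide
      rwa [e] at he
    simp at this hwF; omega
  subst h11
  obtain ⟨w, hw, hwF, he, hm⟩ := ext_step hK (J := {1, 3}) (J' := {0, 1, 3}) (by decide) (by decide)
    (by decide) _ g013 [11, 9, 0, 1, 13, 21, 23] (by decide) (not_mem_P _ g013 _ (by decide) (by decide)) hm
  have hfin : w = 10 ∨ w = 12 ∨ w = 22 := by
    have : w ∈ [0, 1, 9, 10, 11, 12, 13, 21, 22, 23] := by
      have e : exts [[(3 : ℤ), 6, 12, -7, -14]] [11, 9, 0, 1, 13, 21, 23]
        = [0, 1, 9, 10, 11, 12, 13, 21, 22, 23] := by decide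
      rwa [e] at he
    simp at this hwF; omega
  rcases hfin with rfl | rfl | rfl
  · exact hP' 10 (by norm_num) (hK.down _ _ _ hm (by decide) (by decide))
  · exact hP' 21 (by norm_num) (hK.down _ _ _ hm (by decide) (by decide))
  · exact hP' 0 (by norm_num) (hK.down _ _ _ hm (by decide) (by decide))

/-! ### Case B -/

theorem caseB (hK : KS K P)
    (hB : ∀ (i : ZMod 5) N, Good K P {i} N → 2 * N i + N (i + 1) = N (i + 2)) : False := by
  have g0 : ∀ c ∈ [[1, 0, 2, 0, -3], [0, 1, 1, 0, -2], [(0 : ℤ), 0, 0, 1, -1]], GoodC K P {0} c := by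
    intro c hc
    simp only [List.mem_cons, List.not_mem_nil, or_false] at hc
    rcases hc with rfl | rfl | rfl
    · obtain ⟨N, hN, ha, hb, hg⟩ := hK.coc1 0 1 3
      have h1 : 2 * N 0 + N 1 = N 2 := hB 0 N hg
      have h2 := hg.1
      refine goodC_of_good hg _ (N 0) (fun h => hN (funext5 ?_ ?_ ?_ ?_ ?_)) ?_ <;>
        first | omega | (simp only [List.map_cons, List.map_nil, List.cons.injEq, and_true]; omega)
    · obtain ⟨N, hN, ha, hb, hg⟩ := hK.coc1 0 0 3
      have h1 : 2 * N 0 + N 1 = N 2 := hB 0 N hg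
      have h2 := hg.1
      refine goodC_of_good hg _ (N 1) (fun h => hN (funext5 ?_ ?_ ?_ ?_ ?_)) ?_ <;>
        first | omega | (simp only [List.map_cons, List.map_nil, List.cons.injEq, and_true]; omega)
    · obtain ⟨N, hN, ha, hb, hg⟩ := hK.coc1 0 0 1
      have h1 : 2 * N 0 + N 1 = N 2 := hB 0 N hg
      have h2 := hg.1
      refine goodC_of_good hg _ (N 3) (fun h => hN (funext5 ?_ ?_ ?_ ?_ ?_)) ?_ <;>
        first | omega | (simp only [List.map_cons, List.map_nil, List.cons.injEq, and_true]; omega)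
  have g01 : ∀ c ∈ [[0, 1, 1, 3, -5], [(1 : ℤ), 0, 2, 2, -5]], GoodC K P {0, 1} c := by
    intro c hc
    simp only [List.mem_cons, List.not_mem_nil, or_false] at hc
    rcases hc with rfl | rfl
    · obtain ⟨N, hN, ha, hg⟩ := hK.coc2 {0, 1} 0 (by decide)
      have h1 : 2 * N 0 + N 1 = N 2 := hB 0 N (good_mono hK (by decide) (by decide) hg)
      have h3 : 2 * N 1 + N 2 = N 3 := hB 1 N (good_mono hK (by decide) (by decide) hg)
      have h2 := hg.1
      refine goodC_of_good hg _ (N 1) (fun h => hN (funext5 ?_ ?_ ?_ ?_ ?_)) ?_ <;>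
        first | omega | (simp only [List.map_cons, List.map_nil, List.cons.injEq, and_true]; omega)
    · obtain ⟨N, hN, ha, hg⟩ := hK.coc2 {0, 1} 1 (by decide)
      have h1 : 2 * N 0 + N 1 = N 2 := hB 0 N (good_mono hK (by decide) (by decide) hg)
      have h3 : 2 * N 1 + N 2 = N 3 := hB 1 N (good_mono hK (by decide) (by decide) hg)
      have h2 := hg.1
      refine goodC_of_good hg _ (N 0) (fun h => hN (funext5 ?_ ?_ ?_ ?_ ?_)) ?_ <;>
        first | omega | (simp only [List.map_cons, List.map_nil, List.cons.injEq, and_true]; omega)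
  obtain ⟨w, hw, hwF, he, hm⟩ := ext_step hK (J := ∅) (J' := {0}) (by simp) (by decide)
    (by simp) _ g0 [0, 1, 3, 7, 15] (by decide) (not_mem_P _ g0 _ (by decide) (by decide)) ((hK.tor _).2 T0)
  have h4 : w = 4 := by
    have : w ∈ [0, 1, 3, 4, 7, 15] := by
      have e : exts [[1, 0, 2, 0, -3], [0, 1, 1, 0, -2], [(0 : ℤ), 0, 0, 1, -1]] [0, 1, 3, 7, 15]
        = [0, 1, 3, 4, 7, 15] := by decide
      rwa [e] at he
    simp at this hwF; omega
  subst h4
  obtain ⟨w, hw, hwF, he, hm⟩ := ext_step hK (J := {0}) (J' := {0, 1}) (by decide) (by decide)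
    (by decide) _ g01 [4, 0, 1, 3, 7, 15] (by decide) (not_mem_P _ g01 _ (by decide) (by decide)) hm
  have e : exts [[0, 1, 1, 3, -5], [(1 : ℤ), 0, 2, 2, -5]] [4, 0, 1, 3, 7, 15]
    = [0, 1, 3, 4, 7, 15] := by decide
  rw [e] at he
  simp at he hwF; omega

/-- the finite core -/
theorem core (hK : KS K P) : False := by
  obtain ⟨s, h | h⟩ := classify hK
  · refine caseA (shiftKS hK s) fun i N hN => ?_
    have hN' : Good K P {i - s} N := by
      have hN2 : Good K P (({i} : Finset (ZMod 5)).image (· - s)) N := hN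
      rw [Finset.image_singleton] at hN2; exact hN2
    have h0 : Good K P {0} (fun k => N (k + (i - s))) := by
      apply good_rot_s hK
      rw [Finset.image_singleton, zero_add]; exact hN'
    have h1 := h _ h0
    have e1 : s + (i - s) = i := by ring
    have e2 : s + 1 + (i - s) = i + 1 := by ring
    rw [e1, e2] at h1; exact h1
  · refine caseB (shiftKS hK s) fun i N hN => ?_
    have hN' : Good K P {i - s} N := by
      have hN2 : Good K P (({i} : Finset (ZMod 5)).image (· - s)) N := hN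
      rw [Finset.image_singleton] at hN2; exact hN2
    have h0 : Good K P {0} (fun k => N (k + (i - s))) := by
      apply good_rot_s hK
      rw [Finset.image_singleton, zero_add]; exact hN'
    have h1 := h _ h0
    have e1 : s + (i - s) = i := by ring
    have e2 : s + 1 + (i - s) = i + 1 := by ring
    have e3 : s + 2 + (i - s) = i + 2 := by ring
    rw [e1, e2, e3] at h1; exact h1

end Pool.H47.CP
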