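import Pool.Agent.H47.CP.Count
import Pool.Agent.H47.CP.Core4

/-! # From a perfect equilibrium triangulation to the finite structure `KS` -/

set_option autoImplicit false

namespace Pool.H47.CP

/-- the complex `⋃_{j<5} σʲ (p₀ * S)` -/
def gen (S : Set (Finset (ZMod 31))) : Set (Finset Vt) :=
  {G | G.Nonempty ∧ ∃ j : ℕ, j < 5 ∧ ∃ F ∈ S,
    G ⊆ insert (Sum.inr (j : ZMod 5)) (F.image fun x => Sum.inl (2 ^ j * x))}

/-- `τ(x) = x + 1`, fixing the `pᵢ` -/
def tau : Vt → Vt := Sum.map (fun x => x + 1) id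

/-- `ρ(x) = -x`, fixing the `pᵢ` -/
def rho : Vt → Vt := Sum.map (fun x => -x) id

/-- `σ(x) = 2x`, `σ(pᵢ) = p_{i+1}` -/
def sigma : Vt → Vt := Sum.map (fun x => 2 * x) (fun i => i + 1)

/-- automorphism of a complex -/
def IsAut (φ : Vt → Vt) (C : Set (Finset Vt)) : Prop := ∀ F : Finset Vt, F ∈ C ↔ F.image φ ∈ C

theorem tau_inj : Function.Injective tau :=
  Sum.map_injective.2 ⟨add_left_injective 1, Function.injective_id⟩

theorem sigma_inj : Function.Injective sigma := by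
  refine Sum.map_injective.2 ⟨?_, add_left_injective 1⟩
  intro x y h
  have h2 : (16 : ZMod 31) * (2 * x) = 16 * (2 * y) := congrArg (16 * ·) h
  rw [← mul_assoc, ← mul_assoc] at h2
  have h3 : (16 : ZMod 31) * 2 = 1 := by decide
  rwa [h3, one_mul, one_mul] at h2

/-- inclusion of finsets of `ZMod 31` into finsets of vertices -/
def inl (F : Finset (ZMod 31)) : Finset Vt := F.image Sum.inl

theorem mem_inl {F : Finset (ZMod 31)} {x : ZMod 31} : (Sum.inl x : Vt) ∈ inl F ↔ x ∈ F := by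
  simp [inl]

theorem not_inr_mem_inl {F : Finset (ZMod 31)} {i : ZMod 5} : (Sum.inr i : Vt) ∉ inl F := by
  simp [inl]

theorem inl_injective : Function.Injective inl := Finset.image_injective Sum.inl_injective

theorem inl_insert (w : ZMod 31) (F : Finset (ZMod 31)) :
    inl (insert w F) = insert (Sum.inl w) (inl F) := Finset.image_insert _ _ _

theorem inl_nonempty {F : Finset (ZMod 31)} : (inl F).Nonempty ↔ F.Nonempty := by simp [inl]

theorem inl_card (F : Finset (ZMod 31)) : (inl F).card = F.card :=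
  Finset.card_image_of_injective _ Sum.inl_injective

theorem inl_subset {F G : Finset (ZMod 31)} (h : F ⊆ G) : inl F ⊆ inl G :=
  Finset.image_subset_image h

theorem inl_tau (F : Finset (ZMod 31)) : (inl F).image tau = inl (F.image (· + 1)) := by
  unfold inl
  rw [Finset.image_image, Finset.image_image]
  rfl

theorem inl_sigma (F : Finset (ZMod 31)) : (inl F).image sigma = inl (F.image (2 * ·)) := by
  unfold inl
  rw [Finset.image_image, Finset.image_image]
  rfl

/-- an equilibrium triangulation with the permcycle as central torus, on a closed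
pseudomanifold -/
structure Base (C : Set (Finset Vt)) (D : Finset (ZMod 5) → Set (Finset Vt))
    (g : CP4 ≃ₜ real C) : Prop extends Equi C D g where
  dim : ∀ F ∈ C, F.card ≤ 9
  ridge : ∀ E ∈ C, E.card = 8 → {F | F ∈ C ∧ F.card = 9 ∧ E ⊆ F}.ncard = 2
  torus : ∀ G, G ∈ D Finset.univ ↔ ∃ F ∈ torus, inl F = G

/-- `τ` and `σ` respect the strata -/
structure Perf (C : Set (Finset Vt)) (D : Finset (ZMod 5) → Set (Finset Vt))
    (g : CP4 ≃ₜ real C) : Prop extends Base C D g where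
  tauD : ∀ I : Finset (ZMod 5), I.Nonempty → ∀ G ∈ D I, G.image tau ∈ D I
  sigD : ∀ I : Finset (ZMod 5), I.Nonempty → ∀ G ∈ D I, G.image sigma ∈ D (I.image (· + 1))

/-- `τ` and `σ` are automorphisms of the complex, every simplex is joined to one of the `pᵢ`
(as in a generated complex) and `pᵢ` is the only further vertex of `C_{i}` -/
structure Perf1 (C : Set (Finset Vt)) (D : Finset (ZMod 5) → Set (Finset Vt))
    (g : CP4 ≃ₜ real C) : Prop extends Base C D g where
  cone : ∀ H ∈ C, ∃ j : ZMod 5, insert (Sum.inr j) H ∈ C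
  vert : ∀ i j : ZMod 5, ({Sum.inr j} : Finset Vt) ∈ D {i} ↔ j = i
  autT : IsAut tau C
  autS : IsAut sigma C

variable {C : Set (Finset Vt)} {D : Finset (ZMod 5) → Set (Finset Vt)} {g : CP4 ≃ₜ real C}

theorem Base.ridge_even (h : Base C D g) : ∀ E ∈ C, E.card = 8 → ∀ W : Finset Vt,
    (∀ w, w ∈ W ↔ w ∉ E ∧ insert w E ∈ C) → Even W.card := by
  intro E hE h8 W hW
  have h2 := h.ridge E hE h8
  have e : {F | F ∈ C ∧ F.card = 9 ∧ E ⊆ F} = ((W.image fun w => insert w E : Finset _) : Set _) := by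
    ext F
    simp only [Set.mem_setOf_eq, Finset.coe_image, Set.mem_image, Finset.mem_coe]
    constructor
    · rintro ⟨a, b, c⟩
      have hss : E ⊂ F := by
        refine lt_of_le_of_ne c ?_
        rintro rfl; omega
      obtain ⟨w, hw, hwi⟩ := Finset.ssubset_iff.1 hss
      have he : insert w E = F := by
        apply Finset.eq_of_subset_of_card_le hwi
        rw [Finset.card_insert_of_notMem hw]; omega
      exact ⟨w, (hW w).2 ⟨hw, he ▸ a⟩, he⟩
    · rintro ⟨w, hw, rfl⟩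
      obtain ⟨a, b⟩ := (hW w).1 hw
      refine ⟨b, ?_, Finset.subset_insert _ _⟩
      rw [Finset.card_insert_of_notMem a]; omega
  rw [e, Set.ncard_coe_finset, Finset.card_image_of_injOn] at h2
  · rw [h2]; exact even_two
  · intro w hw w' hw' he
    have h1 := ((hW w).1 hw).1
    have hm : w ∈ insert w' E := by
      rw [← show insert w E = insert w' E from he]; exact Finset.mem_insert_self _ _
    rcases Finset.mem_insert.1 hm with h3 | h3
    · exact h3
    · exact absurd h3 h1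

theorem Perf1.mem_single (h : Perf1 C D g) (h1 : T1Stmt) {G : Finset Vt} (hG : G ∈ C) (i : ZMod 5) :
    G ∈ D {i} ↔ insert (Sum.inr i) G ∈ C := by
  constructor
  · intro hGi
    obtain ⟨H, hH, hGH, hL⟩ := h.exists_up h1 hG (Finset.singleton_nonempty i)
      (by rw [Finset.singleton_subset_iff, mem_Lam]; exact hGi)
    obtain ⟨j, hj⟩ := h.cone H hH
    have hsub : Lam D (insert (Sum.inr j) H) ⊆ {i} := by
      rw [← hL]; exact h.lam_anti (h.ne H hH) (Finset.subset_insert _ _)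
    obtain ⟨k, hk⟩ := h.lam_nonempty hj
    have hki : k = i := Finset.mem_singleton.1 (hsub hk)
    subst hki
    have hs : ({Sum.inr j} : Finset Vt) ∈ D {k} := by
      refine h.down _ (Finset.singleton_nonempty k) _ (mem_Lam.1 hk) _ ?_
        (Finset.singleton_nonempty _)
      rw [Finset.singleton_subset_iff]; exact Finset.mem_insert_self _ _
    have hjk := (h.vert k j).1 hs
    subst hjk
    exact h.cdown _ hj _ (Finset.insert_subset_insert _ hGH) (Finset.insert_nonempty _ _)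
  · intro hi
    obtain ⟨k, hk⟩ := h.lam_nonempty hi
    have hs : ({Sum.inr i} : Finset Vt) ∈ D {k} := by
      refine h.down _ (Finset.singleton_nonempty k) _ (mem_Lam.1 hk) _ ?_
        (Finset.singleton_nonempty _)
      rw [Finset.singleton_subset_iff]; exact Finset.mem_insert_self _ _
    have hik := (h.vert k i).1 hs
    subst hik
    exact h.down _ (Finset.singleton_nonempty i) _ (mem_Lam.1 hk) _ (Finset.subset_insert _ _)
      (h.ne G hG)

theorem Perf1.tau_mem (h : Perf1 C D g) (h1 : T1Stmt) {G : Finset Vt} {I : Finset (ZMod 5)}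
    (hI : I.Nonempty) (hG : G ∈ D I) : G.image tau ∈ D I := by
  have hC := h.sub I hI hG
  have hC' : G.image tau ∈ C := (h.autT G).1 hC
  rw [h.mem_D hI hC] at hG
  rw [h.mem_D hI hC']
  intro i hi
  have h2 := mem_Lam.1 (hG hi)
  rw [h.mem_single h1 hC] at h2
  rw [mem_Lam, h.mem_single h1 hC']
  have h3 := (h.autT _).1 h2
  rw [Finset.image_insert] at h3
  exact h3

theorem Perf1.sigma_mem (h : Perf1 C D g) (h1 : T1Stmt) {G : Finset Vt} {I : Finset (ZMod 5)}
    (hI : I.Nonempty) (hG : G ∈ D I) : G.image sigma ∈ D (I.image (· + 1)) := by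
  have hC := h.sub I hI hG
  have hC' : G.image sigma ∈ C := (h.autS G).1 hC
  rw [h.mem_D hI hC] at hG
  rw [h.mem_D (hI.image _) hC']
  intro i hi
  obtain ⟨k, hk, rfl⟩ := Finset.mem_image.1 hi
  have h2 := mem_Lam.1 (hG hk)
  rw [h.mem_single h1 hC] at h2
  rw [mem_Lam, h.mem_single h1 hC']
  have h3 := (h.autS _).1 h2
  rw [Finset.image_insert] at h3
  exact h3

theorem Perf1.perf (h : Perf1 C D g) (h1 : T1Stmt) : Perf C D g where
  toBase := h.toBase
  tauD I hI G hG := h.tau_mem h1 hI hG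
  sigD I hI G hG := h.sigma_mem h1 hI hG

/-- the strata of the triangulation inside `ZMod 31` -/
def KK (D : Finset (ZMod 5) → Set (Finset Vt)) (J : Finset (ZMod 5)) : Set (Finset (ZMod 31)) :=
  {F | J ≠ Finset.univ ∧ inl F ∈ D Jᶜ}

theorem compl_nonempty {J : Finset (ZMod 5)} (h : J ≠ Finset.univ) : Jᶜ.Nonempty := by
  rw [Finset.nonempty_iff_ne_empty]
  intro he
  exact h ((Finset.compl_eq_empty_iff J).1 he)

theorem ne_univ_of_card {J : Finset (ZMod 5)} (h : J.card ≤ 3) : J ≠ Finset.univ := by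
  rintro rfl
  rw [Finset.card_univ, ZMod.card] at h
  omega

theorem two_le_compl {J : Finset (ZMod 5)} (h : J.card ≤ 3) : 2 ≤ (Jᶜ).card := by
  rw [Finset.card_compl, ZMod.card]; omega

theorem exists_inl {w : Vt} {G : Finset Vt} (hw : w ∈ G) (hG : ∀ k, (Sum.inr k : Vt) ∉ G) :
    ∃ x : ZMod 31, w = Sum.inl x := by
  rcases w with x | k
  · exact ⟨x, rfl⟩
  · exact absurd hw (hG k)

/-- simplices of `ZMod 31` spanning a simplex of the stratum together with some `pₖ` -/
def PP (D : Finset (ZMod 5) → Set (Finset Vt)) (J : Finset (ZMod 5)) : Set (Finset (ZMod 31)) :=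
  {F | J ≠ Finset.univ ∧ ∃ k : ZMod 5, insert (Sum.inr k) (inl F) ∈ D Jᶜ}

theorem Equi.mem_KK (h : Equi C D g) {J : Finset (ZMod 5)} (hJ : J ≠ Finset.univ)
    {F : Finset (ZMod 31)} : F ∈ KK D J ↔ inl F ∈ C ∧ Jᶜ ⊆ Lam D (inl F) := by
  constructor
  · rintro ⟨-, h2⟩
    have hC := h.sub _ (compl_nonempty hJ) h2
    exact ⟨hC, (h.mem_D (compl_nonempty hJ) hC).1 h2⟩
  · rintro ⟨h1, h2⟩
    exact ⟨hJ, (h.mem_D (compl_nonempty hJ) h1).2 h2⟩

theorem Equi.nonmax (h : Equi C D g) (h1 : T1Stmt) (J J' : Finset (ZMod 5)) (F : Finset (ZMod 31))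
    (hF : F ∈ KK D J) (hJ : J ⊆ J') (hne : J ≠ J') (hc : J'.card ≤ 3) :
    (∃ w, w ∉ F ∧ insert w F ∈ KK D J') ∨ F ∈ PP D J' := by
  obtain ⟨hC, hL⟩ := (h.mem_KK hF.1).1 hF
  have hJ'u := ne_univ_of_card hc
  have hcc : J'ᶜ ⊆ Jᶜ := Finset.compl_subset_compl.2 hJ
  obtain ⟨H, hH, hFH, hLH⟩ := h.exists_up h1 hC (compl_nonempty hJ'u) (hcc.trans hL)
  have hss : inl F ⊂ H := by
    refine lt_of_le_of_ne hFH ?_
    intro he
    rw [← he] at hLH
    rw [hLH] at hL
    exact hne (Finset.Subset.antisymm hJ (Finset.compl_subset_compl.1 hL))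
  obtain ⟨w, hw, hwi⟩ := Finset.ssubset_iff.1 hss
  have hwC : insert w (inl F) ∈ C := h.cdown H hH _ hwi (Finset.insert_nonempty _ _)
  have hwL : J'ᶜ ⊆ Lam D (insert w (inl F)) := by
    rw [← hLH]; exact h.lam_anti (Finset.insert_nonempty _ _) hwi
  have hwD : insert w (inl F) ∈ D J'ᶜ := (h.mem_D (compl_nonempty hJ'u) hwC).2 hwL
  rcases w with x | k
  · left
    refine ⟨x, fun hx => hw (mem_inl.2 hx), hJ'u, ?_⟩
    rw [inl_insert]; exact hwD
  · right
    exact ⟨hJ'u, k, hwD⟩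

theorem Base.par (h : Base C D g) (h1 : T1Stmt) (h2 : T2Stmt) (j : ZMod 5) (E : Finset (ZMod 31))
    (w : ZMod 31) (h5 : E.card = 5) (hE : E ∈ KK D {j}) (hE0 : E ∉ KK D ∅) (hw : w ∉ E)
    (hwE : insert w E ∈ KK D {j}) :
    (∃ w', w' ∉ E ∧ w' ≠ w ∧ insert w' E ∈ KK D {j}) ∨ E ∈ PP D {j} := by
  have hju : ({j} : Finset (ZMod 5)) ≠ Finset.univ := ne_univ_of_card (by simp)
  have h0u : (∅ : Finset (ZMod 5)) ≠ Finset.univ := ne_univ_of_card (by simp)
  obtain ⟨hC, hL⟩ := (h.mem_KK hju).1 hE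
  have hLe : Lam D (inl E) = {j}ᶜ := by
    refine (Finset.Subset.antisymm ?_ hL)
    intro i hi
    rw [Finset.mem_compl, Finset.mem_singleton]
    rintro rfl
    apply hE0
    rw [h.mem_KK h0u]
    refine ⟨hC, ?_⟩
    intro k _
    by_cases hk : k = i
    · rw [hk]; exact hi
    · exact hL (by rw [Finset.mem_compl, Finset.mem_singleton]; exact hk)
  have hcard : (({j} : Finset (ZMod 5))ᶜ).card = 4 := by
    rw [Finset.card_compl, ZMod.card, Finset.card_singleton]
  have hQ := h.Q h1 h2 h.dim h.ridge_even 4 (inl E) hC (by rw [hLe, hcard])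
    (by rw [inl_card, h5])
  obtain ⟨hC', hL'⟩ := (h.mem_KK hju).1 hwE
  rw [inl_insert] at hC' hL'
  have hup : (Sum.inl w : Vt) ∈ up C D (inl E) (Lam D (inl E)) := by
    rw [mem_up]
    refine ⟨fun hx => hw (mem_inl.1 hx), hC', ?_⟩
    apply Finset.Subset.antisymm (h.lam_anti (h.ne _ hC) (Finset.subset_insert _ _))
    rw [hLe]; exact hL'
  have hpos : 0 < (up C D (inl E) (Lam D (inl E))).card := Finset.card_pos.2 ⟨_, hup⟩
  obtain ⟨k, hk⟩ := hQ
  have h1lt : 1 < (up C D (inl E) (Lam D (inl E))).card := by omega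
  obtain ⟨w', hw', hne⟩ := Finset.exists_mem_ne h1lt (Sum.inl w)
  obtain ⟨a, b, c⟩ := mem_up.1 hw'
  rw [hLe] at c
  have hD : insert w' (inl E) ∈ D {j}ᶜ := (h.mem_D (compl_nonempty hju) b).2 (by rw [c])
  rcases w' with x | k
  · left
    refine ⟨x, fun hx => a (mem_inl.2 hx), fun he => hne (by rw [he]), hju, ?_⟩
    rw [inl_insert]; exact hD
  · right
    exact ⟨hju, k, hD⟩

theorem compl_image_add (J : Finset (ZMod 5)) : (Jᶜ).image (· + 1) = (J.image (· + 1))ᶜ := by
  ext i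
  simp only [Finset.mem_image, Finset.mem_compl]
  constructor
  · rintro ⟨a, ha, rfl⟩ ⟨b, hb, hab⟩
    exact ha (by rwa [add_left_injective (1 : ZMod 5) hab] at hb)
  · intro hi
    exact ⟨i - 1, fun hm => hi ⟨i - 1, hm, by ring⟩, by ring⟩

theorem image_add_ne_univ {J : Finset (ZMod 5)} (hJ : J ≠ Finset.univ) :
    J.image (· + 1) ≠ Finset.univ := by
  intro he
  apply hJ
  apply Finset.eq_univ_of_card
  rw [← Finset.card_image_of_injective J (add_left_injective (1 : ZMod 5)), he,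
    Finset.card_univ]

/-- all fields of `KS` except the cocycles -/
theorem Perf.ks (h : Perf C D g) (h1 : T1Stmt) (h2 : T2Stmt)
    (c1 : ∀ j a b, ∃ N : ZMod 5 → ℤ, N ≠ 0 ∧ N a = 0 ∧ N b = 0 ∧ Good (KK D) (PP D) {j} N)
    (c2 : ∀ J a, J.card = 2 → ∃ N : ZMod 5 → ℤ, N ≠ 0 ∧ N a = 0 ∧ Good (KK D) (PP D) J N)
    (c3 : ∀ J, J.card = 3 → ∃ N : ZMod 5 → ℤ, N ≠ 0 ∧ Good (KK D) (PP D) J N) :
    KS (KK D) (PP D) where
  down J F G hF hG hne := by
    refine ⟨hF.1, ?_⟩
    exact h.down _ (compl_nonempty hF.1) _ hF.2 _ (inl_subset hG) (inl_nonempty.2 hne)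
  inter J J' F hF hF' := by
    obtain ⟨hC, hL⟩ := (h.mem_KK hF.1).1 hF
    obtain ⟨-, hL'⟩ := (h.mem_KK hF'.1).1 hF'
    have hu : J ∩ J' ≠ Finset.univ := by
      intro he
      apply hF.1
      rw [Finset.eq_univ_iff_forall] at he ⊢
      exact fun x => (Finset.mem_inter.1 (he x)).1
    rw [h.mem_KK hu]
    refine ⟨hC, ?_⟩
    rw [Finset.compl_inter]
    exact Finset.union_subset hL hL'
  mono J J' F hJ hc hF := by
    obtain ⟨hC, hL⟩ := (h.mem_KK hF.1).1 hF
    rw [h.mem_KK (ne_univ_of_card hc)]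
    exact ⟨hC, (Finset.compl_subset_compl.2 hJ).trans hL⟩
  shift J F hF := by
    refine ⟨hF.1, ?_⟩
    rw [← inl_tau]
    exact h.tauD _ (compl_nonempty hF.1) _ hF.2
  sig J F hF := by
    refine ⟨image_add_ne_univ hF.1, ?_⟩
    rw [← inl_sigma, ← compl_image_add]
    exact h.sigD _ (compl_nonempty hF.1) _ hF.2
  monoP J J' F hJ hc hF := by
    obtain ⟨hJu, k, hk⟩ := hF
    have hC := h.sub _ (compl_nonempty hJu) hk
    rw [h.mem_D (compl_nonempty hJu) hC] at hk
    refine ⟨ne_univ_of_card hc, k, ?_⟩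
    rw [h.mem_D (compl_nonempty (ne_univ_of_card hc)) hC]
    exact (Finset.compl_subset_compl.2 hJ).trans hk
  sigP J F hF := by
    obtain ⟨hJu, k, hk⟩ := hF
    refine ⟨image_add_ne_univ hJu, k + 1, ?_⟩
    rw [← inl_sigma, ← compl_image_add]
    have h3 := h.sigD _ (compl_nonempty hJu) _ hk
    rw [Finset.image_insert] at h3
    exact h3
  tor F := by
    have h0u : (∅ : Finset (ZMod 5)) ≠ Finset.univ := ne_univ_of_card (by simp)
    constructor
    · rintro ⟨-, hF⟩
      rw [Finset.compl_empty] at hF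
      obtain ⟨F', hF', he⟩ := (h.torus _).1 hF
      rwa [inl_injective he] at hF'
    · intro hF
      refine ⟨h0u, ?_⟩
      rw [Finset.compl_empty, h.torus]
      exact ⟨F, hF, rfl⟩
  nonmax J J' F hF hJ hne hc := h.nonmax h1 J J' F hF hJ hne hc
  par j E w h5 hE hE0 hw hwE := h.par h1 h2 j E w h5 hE hE0 hw hwE
  coc1 := c1
  coc2 := c2
  coc3 := c3

end Pool.H47.CP
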