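import Pool.Agent.H47.CP.Core

set_option autoImplicit false

namespace Pool.H47.CP

theorem mem_scanl (n : ℕ) (b : List ℕ) (x : ZMod n) (v : ZMod n) :
    v ∈ b.scanl (fun (y : ZMod n) (c : ℕ) => y + (c : ZMod n)) x ↔
      ∃ u ∈ b.scanl (· + ·) 0, v = x + (u : ℕ) := by
  have key : ∀ (b : List ℕ) (x : ZMod n) (s : ℕ),
      b.scanl (fun (y : ZMod n) (c : ℕ) => y + (c : ZMod n)) (x + (s : ℕ)) =
        (b.scanl (· + ·) s).map (fun u : ℕ => x + (u : ZMod n)) := by
    intro b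
    induction b with
    | nil => intro x s; simp
    | cons a l ih =>
      intro x s
      simp only [List.scanl_cons, List.map_cons]
      rw [add_assoc, ← Nat.cast_add, ih]
  have h0 := key b x 0
  simp only [Nat.cast_zero, add_zero] at h0
  rw [h0, List.mem_map]
  constructor
  · rintro ⟨u, hu, rfl⟩; exact ⟨u, hu, rfl⟩
  · rintro ⟨u, hu, rfl⟩; exact ⟨u, hu, rfl⟩

/-- the 24 facets starting at 0 -/
def tfacs : List (List ℕ) := [1, 2, 4, 8].permutations'.map (fun b => b.scanl (· + ·) 0)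

theorem torus_sub {F : Finset (ZMod 31)} (h : F ∈ torus) :
    ∃ x0 < 31, ∃ l ∈ tfacs, ∀ v ∈ F, ∃ u ∈ l, v = ((x0 + u : ℕ) : ZMod 31) := by
  obtain ⟨-, x, b, hb, hF⟩ := h
  refine ⟨x.val, ZMod.val_lt x, b.scanl (· + ·) 0, ?_, fun v hv => ?_⟩
  · unfold tfacs
    rw [List.mem_map]
    exact ⟨b, List.mem_permutations'.2 hb, rfl⟩
  · have h1 := hF hv
    rw [List.mem_toFinset, mem_scanl] at h1
    obtain ⟨u, hu, rfl⟩ := h1
    exact ⟨u, hu, by push_cast; rw [ZMod.natCast_zmod_val]⟩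

/-- Boolean test -/
def inT (F : List ℕ) : Bool :=
  (List.range 31).any fun x => tfacs.any fun l => F.all fun v => l.any fun u => (x + u) % 31 == v

theorem not_torus (F : List ℕ) (hF : ∀ x ∈ F, x < 31) (h : inT F = false) : fs F ∉ torus := by
  intro hT
  obtain ⟨x, hx, l, hl, hu⟩ := torus_sub hT
  have : inT F = true := by
    unfold inT
    rw [List.any_eq_true]
    refine ⟨x, List.mem_range.2 hx, ?_⟩
    rw [List.any_eq_true]
    refine ⟨l, hl, ?_⟩
    rw [List.all_eq_true]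
    intro v hv
    rw [List.any_eq_true]
    obtain ⟨u, hu1, hu2⟩ := hu v (mem_fs.2 ⟨v, hv, rfl⟩)
    refine ⟨u, hu1, ?_⟩
    have := congrArg ZMod.val hu2
    rw [ZMod.val_natCast, ZMod.val_natCast, Nat.mod_eq_of_lt (hF v hv)] at this
    rw [beq_iff_eq]; exact this.symm
  rw [h] at this
  exact Bool.false_ne_true this

theorem torus_mk (x : ℕ) (b : List ℕ) (hb : b.Perm [1, 2, 4, 8]) (F : List ℕ) (hne : F ≠ [])
    (hF : ∀ v ∈ F, ∃ u ∈ b.scanl (· + ·) 0, (x + u) % 31 = v) : fs F ∈ torus := by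
  refine ⟨?_, (x : ZMod 31), b, hb, ?_⟩
  · obtain ⟨a, l, rfl⟩ := List.exists_cons_of_ne_nil hne
    exact ⟨_, mem_fs.2 ⟨a, by simp, rfl⟩⟩
  · intro v hv
    obtain ⟨n, hn, rfl⟩ := mem_fs.1 hv
    obtain ⟨u, hu, he⟩ := hF n hn
    rw [List.mem_toFinset, mem_scanl]
    refine ⟨u, hu, ?_⟩
    rw [← he, ← Nat.cast_add, ZMod.natCast_mod]

theorem tri_not (k : ℕ) (hk : k < 31) : fs [k, (k + 11) % 31, (k + 22) % 31] ∉ torus := by
  apply not_torus
  · intro x hx
    simp only [List.mem_cons, List.not_mem_nil, or_false] at hx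
    omega
  · have : ∀ k ∈ List.range 31, inT [k, (k + 11) % 31, (k + 22) % 31] = false := by decide +kernel
    exact this k (List.mem_range.2 hk)

theorem E_not : fs [0, 1, 13, 21, 23] ∉ torus :=
  not_torus _ (by decide) (by decide +kernel)

theorem T0 : fs [0, 1, 3, 7, 15] ∈ torus := torus_mk 0 [1, 2, 4, 8] (by decide) _ (by decide) (by decide)
theorem T1 : fs [0, 1, 5, 21, 23] ∈ torus := torus_mk 21 [2, 8, 1, 4] (by decide) _ (by decide) (by decide)
theorem T2 : fs [0, 1, 3, 7, 23] ∈ torus := torus_mk 23 [8, 1, 2, 4] (by decide) _ (by decide) (by decide)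

theorem E_card : (fs [0, 1, 13, 21, 23]).card = 5 := by decide

end Pool.H47.CP
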