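import Mathlib

/-! # Finite core of the non-existence of perfect equilibrium triangulations of `ℂP⁴`

Everything in this file is finite combinatorics on `ZMod 31`. -/

set_option autoImplicit false

namespace Pool.H47.CP

/-- the faces of the permcycle `a₁ … a_{m+1}` on `ZMod n` -/
def permcycle (n : ℕ) (a : List ℕ) : Set (Finset (ZMod n)) :=
  {F | F.Nonempty ∧ ∃ x : ZMod n, ∃ b : List ℕ, b.Perm a.dropLast ∧
    F ⊆ (b.scanl (fun (y : ZMod n) (c : ℕ) => y + (c : ZMod n)) x).toFinset}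

/-- the central torus -/
def torus : Set (Finset (ZMod 31)) := permcycle 31 [1, 2, 4, 8, 16]

/-- sum of the entries of `c` over the binary digits of `r` -/
def vl : List ℤ → ℕ → ℤ
  | [], _ => 0
  | a :: l, r => (if r % 2 = 1 then a else 0) + vl l (r / 2)

/-- value on a residue -/
def val (N : ZMod 5 → ℤ) (r : ZMod 31) : ℤ := vl [N 0, N 1, N 2, N 3, N 4] r.val

/-- `N` is a cocycle on the complex `K J`, vanishing on the links `P J` of the further vertices -/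
def Good (K P : Finset (ZMod 5) → Set (Finset (ZMod 31))) (J : Finset (ZMod 5))
    (N : ZMod 5 → ℤ) : Prop :=
  N 0 + N 1 + N 2 + N 3 + N 4 = 0 ∧
    (∀ F ∈ K J, ∀ x ∈ F, ∀ y ∈ F, ∀ z ∈ F, val N (y - x) + val N (z - y) = val N (z - x)) ∧
    ∀ F ∈ P J, ∀ x ∈ F, ∀ y ∈ F, val N (y - x) = 0

/-- the combinatorial structure produced by a perfect equilibrium triangulation;
`K J` is the stratum with index set the complement of `J`, and `P J` consists of the simplices of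
`ZMod 31` which span a simplex of this stratum together with one of the further vertices -/
structure KS (K P : Finset (ZMod 5) → Set (Finset (ZMod 31))) : Prop where
  down : ∀ J F G, F ∈ K J → G ⊆ F → G.Nonempty → G ∈ K J
  inter : ∀ J J' F, F ∈ K J → F ∈ K J' → F ∈ K (J ∩ J')
  mono : ∀ J J' F, J ⊆ J' → J'.card ≤ 3 → F ∈ K J → F ∈ K J'
  shift : ∀ J F, F ∈ K J → F.image (· + 1) ∈ K J
  sig : ∀ J F, F ∈ K J → F.image (2 * ·) ∈ K (J.image (· + 1))
  monoP : ∀ J J' F, J ⊆ J' → J'.card ≤ 3 → F ∈ P J → F ∈ P J'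
  sigP : ∀ J F, F ∈ P J → F.image (2 * ·) ∈ P (J.image (· + 1))
  tor : ∀ F, F ∈ K ∅ ↔ F ∈ torus
  nonmax : ∀ J J' F, F ∈ K J → J ⊆ J' → J ≠ J' → J'.card ≤ 3 →
    (∃ w, w ∉ F ∧ insert w F ∈ K J') ∨ F ∈ P J'
  par : ∀ j E w, E.card = 5 → E ∈ K {j} → E ∉ K ∅ → w ∉ E → insert w E ∈ K {j} →
    (∃ w', w' ∉ E ∧ w' ≠ w ∧ insert w' E ∈ K {j}) ∨ E ∈ P {j}
  coc1 : ∀ j a b, ∃ N : ZMod 5 → ℤ, N ≠ 0 ∧ N a = 0 ∧ N b = 0 ∧ Good K P {j} N
  coc2 : ∀ J a, J.card = 2 → ∃ N : ZMod 5 → ℤ, N ≠ 0 ∧ N a = 0 ∧ Good K P J N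
  coc3 : ∀ J, J.card = 3 → ∃ N : ZMod 5 → ℤ, N ≠ 0 ∧ Good K P J N

/-- finset of residues from a list of naturals -/
def fs (l : List ℕ) : Finset (ZMod 31) := (l.map (fun n : ℕ => (n : ZMod 31))).toFinset

/-- the cocycle condition on a triangle -/
def chk (c : List ℤ) (x y w : ℕ) : Bool :=
  vl c ((y + 31 - x) % 31) + vl c ((w + 31 - y) % 31) == vl c ((w + 31 - x) % 31)

/-- candidates for an additional vertex -/
def exts (cs : List (List ℤ)) (F : List ℕ) : List ℕ :=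
  (List.range 31).filter fun w => cs.all fun c => F.all fun x => F.all fun y => chk c x y w

theorem mem_fs {l : List ℕ} {x : ZMod 31} : x ∈ fs l ↔ ∃ n ∈ l, (n : ZMod 31) = x := by
  simp [fs]

theorem fs_cons (w : ℕ) (l : List ℕ) : fs (w :: l) = insert (w : ZMod 31) (fs l) := by
  simp [fs]

theorem sub_val {x y : ℕ} (hx : x ≤ 31) : ((y : ZMod 31) - (x : ZMod 31)).val = (y + 31 - x) % 31 := by
  have h : ((y : ZMod 31) - (x : ZMod 31)) = ((y + 31 - x : ℕ) : ZMod 31) := by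
    rw [Nat.cast_sub (by omega), Nat.cast_add]
    have : ((31 : ℕ) : ZMod 31) = 0 := by decide
    rw [this]; ring
  rw [h, ZMod.val_natCast]

theorem vl_smul (k : ℤ) (c : List ℤ) (r : ℕ) : vl (c.map (k * ·)) r = k * vl c r := by
  induction c generalizing r with
  | nil => simp [vl]
  | cons a l ih =>
    simp only [List.map_cons, vl, ih, mul_add]
    split_ifs <;> ring

/-- `c` (a list of five integers) is a cocycle on `K J` vanishing on `P J` -/
def GoodC (K P : Finset (ZMod 5) → Set (Finset (ZMod 31))) (J : Finset (ZMod 5))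
    (c : List ℤ) : Prop :=
  (∀ F ∈ K J, ∀ x ∈ F, ∀ y ∈ F, ∀ z ∈ F,
    vl c (y - x).val + vl c (z - y).val = vl c (z - x).val) ∧
  ∀ F ∈ P J, ∀ x ∈ F, ∀ y ∈ F, vl c (y - x).val = 0

theorem goodC_of_good {K P : Finset (ZMod 5) → Set (Finset (ZMod 31))} {J : Finset (ZMod 5)}
    {N : ZMod 5 → ℤ} (h : Good K P J N) (c : List ℤ) (k : ℤ) (hk : k ≠ 0)
    (hc : [N 0, N 1, N 2, N 3, N 4] = c.map (k * ·)) : GoodC K P J c := by
  constructor
  · intro F hF x hx y hy z hz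
    have h1 := h.2.1 F hF x hx y hy z hz
    unfold val at h1
    rw [hc, vl_smul, vl_smul, vl_smul, ← mul_add] at h1
    exact mul_left_cancel₀ hk h1
  · intro F hF x hx y hy
    have h1 := h.2.2 F hF x hx y hy
    unfold val at h1
    rw [hc, vl_smul] at h1
    exact (mul_eq_zero.1 h1).resolve_left hk

theorem ext_of_mem {K P : Finset (ZMod 5) → Set (Finset (ZMod 31))} {J : Finset (ZMod 5)}
    (cs : List (List ℤ)) (hcs : ∀ c ∈ cs, GoodC K P J c) (F : List ℕ) (hF : ∀ x ∈ F, x < 31)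
    (w : ℕ) (hw : w < 31) (h : insert (w : ZMod 31) (fs F) ∈ K J) : w ∈ exts cs F := by
  simp only [exts, List.mem_filter, List.mem_range, List.all_eq_true]
  refine ⟨hw, fun c hc x hx y hy => ?_⟩
  have hx' : (x : ZMod 31) ∈ insert (w : ZMod 31) (fs F) :=
    Finset.mem_insert_of_mem (mem_fs.2 ⟨x, hx, rfl⟩)
  have hy' : (y : ZMod 31) ∈ insert (w : ZMod 31) (fs F) :=
    Finset.mem_insert_of_mem (mem_fs.2 ⟨y, hy, rfl⟩)
  have := (hcs c hc).1 _ h _ hx' _ hy' _ (Finset.mem_insert_self _ _)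
  rw [sub_val (hF x hx).le, sub_val (hF y hy).le, sub_val (hF x hx).le] at this
  simp only [chk, beq_iff_eq]
  exact this

theorem not_mem_fs {F : List ℕ} {w : ℕ} (hF : ∀ x ∈ F, x < 31) (hw : w < 31)
    (h : (w : ZMod 31) ∉ fs F) : w ∉ F := fun hm => h (mem_fs.2 ⟨w, hm, rfl⟩)

theorem not_mem_fs' {F : List ℕ} {w : ℕ} (hF : ∀ x ∈ F, x < 31) (hw : w < 31)
    (h : w ∉ F) : (w : ZMod 31) ∉ fs F := by
  intro hm
  obtain ⟨n, hn, he⟩ := mem_fs.1 hm
  have h1 := congrArg ZMod.val he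
  rw [ZMod.val_natCast, ZMod.val_natCast, Nat.mod_eq_of_lt (hF n hn), Nat.mod_eq_of_lt hw] at h1
  exact h (h1 ▸ hn)

/-- a pair of elements of `F` on which `c` does not vanish -/
def nz (cs : List (List ℤ)) (F : List ℕ) : Bool :=
  cs.any fun c => F.any fun x => F.any fun y => !(vl c ((y + 31 - x) % 31) == 0)

theorem not_mem_P {K P : Finset (ZMod 5) → Set (Finset (ZMod 31))} {J : Finset (ZMod 5)}
    (cs : List (List ℤ)) (hcs : ∀ c ∈ cs, GoodC K P J c) (F : List ℕ) (hF : ∀ x ∈ F, x < 31)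
    (hn : nz cs F = true) : fs F ∉ P J := by
  intro hP
  simp only [nz, List.any_eq_true] at hn
  obtain ⟨c, hc, x, hx, y, hy, h⟩ := hn
  have h1 := (hcs c hc).2 _ hP (x : ZMod 31) (mem_fs.2 ⟨x, hx, rfl⟩) (y : ZMod 31)
    (mem_fs.2 ⟨y, hy, rfl⟩)
  rw [sub_val (hF x hx).le] at h1
  simp [h1] at h

/-- one step of extension -/
theorem ext_step {K P : Finset (ZMod 5) → Set (Finset (ZMod 31))} (hK : KS K P)
    {J J' : Finset (ZMod 5)} (hJ : J ⊆ J') (hne : J ≠ J') (h3 : J'.card ≤ 3)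
    (cs : List (List ℤ)) (hcs : ∀ c ∈ cs, GoodC K P J' c) (F : List ℕ) (hF : ∀ x ∈ F, x < 31)
    (hP : fs F ∉ P J')
    (h : fs F ∈ K J) : ∃ w, w < 31 ∧ w ∉ F ∧ w ∈ exts cs F ∧ fs (w :: F) ∈ K J' := by
  obtain ⟨w, hw, hmem⟩ := (hK.nonmax J J' (fs F) h hJ hne h3).resolve_right hP
  have hwv : ((w.val : ℕ) : ZMod 31) = w := ZMod.natCast_zmod_val w
  have hlt : w.val < 31 := ZMod.val_lt w
  rw [← hwv] at hmem hw
  refine ⟨w.val, hlt, not_mem_fs hF hlt hw, ext_of_mem cs hcs F hF _ hlt hmem, ?_⟩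
  rw [fs_cons]; exact hmem

/-- the second extension at an interior ridge -/
theorem par_step {K P : Finset (ZMod 5) → Set (Finset (ZMod 31))} (hK : KS K P)
    {j : ZMod 5} (cs : List (List ℤ)) (hcs : ∀ c ∈ cs, GoodC K P {j} c) (F : List ℕ)
    (hF : ∀ x ∈ F, x < 31) (hP : fs F ∉ P {j}) (w : ℕ) (hw : w < 31) (hwF : w ∉ F)
    (hcard : (fs F).card = 5)
    (hT : fs F ∉ torus) (h : fs (w :: F) ∈ K {j}) :
    ∃ w', w' < 31 ∧ w' ∉ F ∧ w' ≠ w ∧ w' ∈ exts cs F ∧ fs (w' :: F) ∈ K {j} := by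
  have hE : fs F ∈ K {j} := by
    refine hK.down _ _ _ h ?_ ?_
    · rw [fs_cons]; exact Finset.subset_insert _ _
    · rw [← Finset.card_pos, hcard]; norm_num
  rw [fs_cons] at h
  obtain ⟨w', h1, h2, h3⟩ := (hK.par j (fs F) w hcard hE (fun hc => hT ((hK.tor _).1 hc))
    (not_mem_fs' hF hw hwF) h).resolve_right hP
  have hwv : ((w'.val : ℕ) : ZMod 31) = w' := ZMod.natCast_zmod_val w'
  have hlt : w'.val < 31 := ZMod.val_lt w'
  rw [← hwv] at h1 h3
  refine ⟨w'.val, hlt, not_mem_fs hF hlt h1, ?_, ext_of_mem cs hcs F hF _ hlt h3, ?_⟩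
  · rintro rfl; exact h2 hwv.symm
  · rw [fs_cons]; exact h3

theorem funext5 {N : ZMod 5 → ℤ} (h0 : N 0 = 0) (h1 : N 1 = 0) (h2 : N 2 = 0) (h3 : N 3 = 0)
    (h4 : N 4 = 0) : N = 0 := by
  funext k
  fin_cases k <;> assumption

end Pool.H47.CP
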