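import Mathlib
import Pool.Agent.H47.CP.Core

/-! # Definitions for MP_7acde3_gt: equilibrium triangulations of `ℂP⁴` -/

set_option autoImplicit false

namespace Pool.H47.CP

/-- complex projective 4-space, homogeneous coordinates indexed by `ZMod 5` -/
def CP4 : Type := Projectivization ℂ (ZMod 5 → ℂ)

/-- the quotient topology -/
instance : TopologicalSpace CP4 :=
  inferInstanceAs (TopologicalSpace (Quotient (projectivizationSetoid ℂ (ZMod 5 → ℂ))))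

/-- a chosen vector of homogeneous coordinates -/
noncomputable def CP4.rep (p : CP4) : ZMod 5 → ℂ := Projectivization.rep (show Projectivization ℂ (ZMod 5 → ℂ) from p)

/-- the point `[v]` -/
noncomputable def CP4.mk (v : ZMod 5 → ℂ) (hv : v ≠ 0) : CP4 := Projectivization.mk ℂ v hv

/-- `B_I`: the points all of whose coordinates `z_i`, `i ∈ I`, have maximal modulus -/
def B (I : Finset (ZMod 5)) : Set CP4 := {p | ∀ i ∈ I, ∀ j, ‖p.rep j‖ ≤ ‖p.rep i‖}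

/-- the points for which exactly the coordinates in `I` have maximal modulus -/
def relB (I : Finset (ZMod 5)) : Set CP4 := {p | p ∈ B I ∧ ∀ l, l ∉ I → p ∉ B {l}}

/-- quotient of two homogeneous coordinates -/
noncomputable def rat (i j : ZMod 5) (p : CP4) : ℂ := p.rep i / p.rep j

/-- vertices: `inl x` for `x ∈ ℤ₃₁`, and the five further vertices `inr i = pᵢ` -/
abbrev Vt := ZMod 31 ⊕ ZMod 5

/-- geometric realization of an abstract simplicial complex on `Vt` -/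
def real (C : Set (Finset Vt)) : Set (Vt → ℝ) :=
  {f | (∀ v, 0 ≤ f v) ∧ ∑ v, f v = 1 ∧ (Finset.univ.filter fun v => f v ≠ 0) ∈ C}

/-! ## Statements to be proved (interface) -/

/-- [helper50] -/
def T1Stmt : Prop := ∀ (I : Finset (ZMod 5)), I.Nonempty → ∀ p ∈ B I, p ∈ closure (relB I)

/-- [helper50] -/
def T2Stmt : Prop := ∀ (I : Finset (ZMod 5)), I.Nonempty → ∀ p ∈ B I, ∀ U : Set CP4, IsOpen U →
  p ∈ U → ∃ V P : Set CP4, IsOpen V ∧ p ∈ V ∧ IsPreconnected P ∧ V ∩ relB I ⊆ P ∧ P ⊆ U ∩ relB I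

/-- [helper44] -/
def T3Stmt : Prop := ∀ (I : Finset (ZMod 5)) (i j : ZMod 5), i ∈ I → j ∈ I →
  ContinuousOn (rat i j) (B I) ∧ ∀ p ∈ B I, ‖rat i j p‖ = 1

/-- [helper44] no continuous logarithm of a nontrivial monomial on the central torus -/
def T4Stmt : Prop := ∀ (j0 : ZMod 5) (m : ZMod 5 → ℤ), m j0 = 0 → ∀ Φ : CP4 → ℝ,
  ContinuousOn Φ (B Finset.univ) →
  (∀ p ∈ B Finset.univ, ∏ k, (rat k j0 p) ^ (m k) = Complex.exp (Φ p * Complex.I)) → m = 0

/-- [helper84] lifting on convex sets -/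
def LiftStmt : Prop := ∀ (K : Set (Vt → ℝ)), Convex ℝ K → ∀ u : (Vt → ℝ) → ℂ, ContinuousOn u K →
  (∀ q ∈ K, ‖u q‖ = 1) → ∃ F : (Vt → ℝ) → ℝ, ContinuousOn F K ∧
    ∀ q ∈ K, u q = Complex.exp (F q * Complex.I)

/-- [helper84] uniqueness of lifts -/
def LiftUniqStmt : Prop := ∀ (K : Set (Vt → ℝ)), IsPreconnected K → ∀ F F' : (Vt → ℝ) → ℝ,
  ContinuousOn F K → ContinuousOn F' K →
  (∀ q ∈ K, Complex.exp (F q * Complex.I) = Complex.exp (F' q * Complex.I)) →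
  ∃ c : ℝ, ∀ q ∈ K, F' q = F q + c

/-- sum over binary digits, real coefficients -/
def vlR : List ℝ → ℕ → ℝ
  | [], _ => 0
  | a :: l, r => (if r % 2 = 1 then a else 0) + vlR l (r / 2)

/-- [helper48] averaging of a real cocycle `c` on a translation invariant complex containing the
torus: with `a r = ∑ x, c x (x + r)`, `a` is additive over binary digits, is a cocycle, and `c` is
exact if `a` vanishes on `1, 2, 4, 8, 16`. -/
def AvgStmt : Prop := ∀ (KT : Set (Finset (ZMod 31))), torus ⊆ KT →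
  (∀ F ∈ KT, F.image (· + 1) ∈ KT) → ∀ c : ZMod 31 → ZMod 31 → ℝ,
  (∀ F ∈ KT, ∀ x ∈ F, ∀ y ∈ F, ∀ z ∈ F, c x y + c y z = c x z) →
  ∀ a : ZMod 31 → ℝ, (∀ r, a r = ∑ x, c x (x + r)) →
    a 1 + a 2 + a 4 + a 8 + a 16 = 0 ∧
    (∀ r, a r = vlR [a 1, a 2, a 4, a 8, a 16] r.val) ∧
    (∀ F ∈ KT, ∀ x ∈ F, ∀ y ∈ F, ∀ z ∈ F, a (y - x) + a (z - y) = a (z - x)) ∧
    (a 1 = 0 → a 2 = 0 → a 4 = 0 → a 8 = 0 → a 16 = 0 → ∃ f : ZMod 31 → ℝ, ∀ x y, c x y = f y - f x)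

/-- [helper44] integer linear algebra: `s` vectors, independent over `ℤ`, fewer than `s` linear
conditions -/
def IntLinStmt : Prop := ∀ (T : Finset (ZMod 5)) (N : ZMod 5 → ZMod 5 → ℤ) (A : Finset (ZMod 5)),
  A.card < T.card → (∀ m : ZMod 5 → ℤ, (∀ k, k ∉ T → m k = 0) →
    (∀ l, ∑ k ∈ T, m k * N k l = 0) → m = 0) →
  ∃ m : ZMod 5 → ℤ, (∀ k, k ∉ T → m k = 0) ∧ (∀ l ∈ A, ∑ k ∈ T, m k * N k l = 0) ∧
    (fun l => ∑ k ∈ T, m k * N k l) ≠ 0

end Pool.H47.CP
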