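import Pool.Agent.H47.CP.Assem
import Pool.Agent.H84.CL.Cx
import Pool.Agent.H48.CP.Avg

/-! # Cocycles of a perfect equilibrium triangulation -/

set_option autoImplicit false

namespace Pool.H47.CP

open Pool.Agent.H84.CL (circ coe_circ inc vtx DownK continuousOn_circ inc_face_add exp_inc_face
  cont_edge inc_zpow inc_prod lift_global' edge_subset_of splx_subset_rl circ_eq_exp_iff)

/-! ### Linearity of `Good` -/

theorem val_add (N M : ZMod 5 → ℤ) (r : ZMod 31) :
    val (fun l => N l + M l) r = val N r + val M r := by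
  unfold val
  simp only [vl]
  split_ifs <;> ring

theorem val_smul (c : ℤ) (N : ZMod 5 → ℤ) (r : ZMod 31) :
    val (fun l => c * N l) r = c * val N r := by
  unfold val
  simp only [vl]
  split_ifs <;> ring

variable {K P : Finset (ZMod 5) → Set (Finset (ZMod 31))}

theorem good_zero (J : Finset (ZMod 5)) : Good K P J (fun _ => 0) := by
  have := val_smul 0 (fun _ => 0)
  simp only [zero_mul, mul_zero] at this
  refine ⟨by simp, fun F _ x _ y _ z _ => ?_, fun F _ x _ y _ => this _⟩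
  rw [this, this, this]; ring

theorem good_add {J : Finset (ZMod 5)} {N M : ZMod 5 → ℤ} (hN : Good K P J N) (hM : Good K P J M) :
    Good K P J (fun l => N l + M l) := by
  refine ⟨by linarith [hN.1, hM.1], fun F hF x hx y hy z hz => ?_, fun F hF x hx y hy => ?_⟩
  · rw [val_add, val_add, val_add]
    linarith [hN.2.1 F hF x hx y hy z hz, hM.2.1 F hF x hx y hy z hz]
  · rw [val_add, hN.2.2 F hF x hx y hy, hM.2.2 F hF x hx y hy, add_zero]

theorem good_smul {J : Finset (ZMod 5)} {N : ZMod 5 → ℤ} (c : ℤ) (hN : Good K P J N) :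
    Good K P J (fun l => c * N l) := by
  refine ⟨by linear_combination c * hN.1, fun F hF x hx y hy z hz => ?_, fun F hF x hx y hy => ?_⟩
  · rw [val_smul, val_smul, val_smul]
    linear_combination c * hN.2.1 F hF x hx y hy z hz
  · rw [val_smul, hN.2.2 F hF x hx y hy, mul_zero]

theorem good_sum {J : Finset (ZMod 5)} (T : Finset (ZMod 5)) (m : ZMod 5 → ℤ)
    (N : ZMod 5 → ZMod 5 → ℤ) (hN : ∀ k ∈ T, Good K P J (N k)) :
    Good K P J (fun l => ∑ k ∈ T, m k * N k l) := by
  classical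
  induction T using Finset.induction_on with
  | empty => simpa using good_zero J
  | insert a T ha ih =>
    have e : (fun l => ∑ k ∈ insert a T, m k * N k l) =
        fun l => m a * N a l + ∑ k ∈ T, m k * N k l := by
      funext l; rw [Finset.sum_insert ha]
    rw [e]
    exact good_add (good_smul _ (hN a (Finset.mem_insert_self _ _)))
      (ih fun k hk => hN k (Finset.mem_insert_of_mem hk))

/-! ### Real values -/

theorem vlR_cast (c : ℝ) (l : List ℤ) (r : ℕ) :
    vlR (l.map fun n : ℤ => c * (n : ℝ)) r = c * (vl l r : ℝ) := by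
  induction l generalizing r with
  | nil => simp [vl, vlR]
  | cons a l ih =>
    simp only [List.map_cons, vl, vlR, ih, Int.cast_add, mul_add]
    split_ifs <;> simp

variable {C : Set (Finset Vt)} {D : Finset (ZMod 5) → Set (Finset Vt)} {g : CP4 ≃ₜ real C}

theorem Equi.downK (h : Equi C D g) {I : Finset (ZMod 5)} (hI : I.Nonempty) : DownK (D I) :=
  fun F hF G hG hne => h.down I hI F hF G hG hne

open Classical in
/-- the ratio `z_i / z_j` on the realization -/
noncomputable def Rq (g : CP4 ≃ₜ real C) (i j : ZMod 5) (q : Vt → ℝ) : ℂ :=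
  if h : q ∈ real C then rat i j (g.symm ⟨q, h⟩) else 1

theorem Rq_apply (g : CP4 ≃ₜ real C) (i j : ZMod 5) (p : CP4) : Rq g i j (g p) = rat i j p := by
  unfold Rq
  rw [dif_pos (g p).2]
  have : (⟨((g p : real C) : Vt → ℝ), (g p).2⟩ : real C) = g p := rfl
  rw [this, Homeomorph.symm_apply_apply]

theorem real_mono {K K' : Set (Finset Vt)} (h : K ⊆ K') : real K ⊆ real K' :=
  fun _ hf => ⟨hf.1, hf.2.1, h hf.2.2⟩

theorem Rq_cont (h : Equi C D g) (h3 : T3Stmt) {I : Finset (ZMod 5)} (hI : I.Nonempty)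
    {i j : ZMod 5} (hi : i ∈ I) (hj : j ∈ I) :
    ContinuousOn (Rq g i j) (real (D I)) ∧ ∀ q ∈ real (D I), ‖Rq g i j q‖ = 1 := by
  obtain ⟨hc, hn⟩ := h3 I i j hi hj
  have hsub : real (D I) ⊆ real C := real_mono (h.sub I hI)
  have hmem : ∀ q : real (D I), g.symm ⟨q.1, hsub q.2⟩ ∈ B I := by
    intro q
    rw [h.mem_B hI, Homeomorph.apply_symm_apply]
    exact q.2.2.2
  constructor
  · rw [continuousOn_iff_continuous_domRestrict]
    have hg : Continuous fun q : real (D I) => g.symm ⟨q.1, hsub q.2⟩ :=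
      g.symm.continuous.comp (Continuous.subtype_mk continuous_subtype_val _)
    have hr : Continuous fun q : real (D I) => rat i j (g.symm ⟨q.1, hsub q.2⟩) := by
      have h4 : Continuous fun q : real (D I) => (⟨g.symm ⟨q.1, hsub q.2⟩, hmem q⟩ : B I) :=
        Continuous.subtype_mk hg _
      exact (continuousOn_iff_continuous_domRestrict.1 hc).comp h4
    have he : (real (D I)).domRestrict (Rq g i j) =
        fun q => rat i j (g.symm ⟨q.1, hsub q.2⟩) := by
      funext q
      simp only [Set.domRestrict]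
      unfold Rq
      rw [dif_pos (hsub q.2)]
    rw [he]; exact hr
  · intro q hq
    unfold Rq
    rw [dif_pos (hsub hq)]
    exact hn _ (hmem ⟨q, hq⟩)

/-- circle valued version -/
noncomputable def fq (g : CP4 ≃ₜ real C) (i j : ZMod 5) (q : Vt → ℝ) : Circle := circ (Rq g i j q)

theorem fq_cont (h : Equi C D g) (h3 : T3Stmt) {I : Finset (ZMod 5)} (hI : I.Nonempty)
    {i j : ZMod 5} (hi : i ∈ I) (hj : j ∈ I) : ContinuousOn (fq g i j) (real (D I)) :=
  continuousOn_circ (Rq_cont h h3 hI hi hj).1 (Rq_cont h h3 hI hi hj).2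

/-- increments on `ZMod 31` -/
noncomputable def cij (g : CP4 ≃ₜ real C) (i j : ZMod 5) (x y : ZMod 31) : ℝ :=
  inc (fq g i j) (Sum.inl x) (Sum.inl y)

theorem torus_sub_KK (h : Base C D g) {J : Finset (ZMod 5)} (hJ : J ≠ Finset.univ) :
    torus ⊆ KK D J := by
  intro F hF
  refine ⟨hJ, ?_⟩
  have h1 : inl F ∈ D Finset.univ := (h.torus _).2 ⟨F, hF, rfl⟩
  have hC := h.sub _ Finset.univ_nonempty h1
  rw [h.mem_D Finset.univ_nonempty hC] at h1
  rw [h.mem_D (compl_nonempty hJ) hC]
  exact (Finset.subset_univ _).trans h1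

theorem shift_KK (h : Perf C D g) {J : Finset (ZMod 5)} :
    ∀ F ∈ KK D J, F.image (· + 1) ∈ KK D J := by
  intro F hF
  refine ⟨hF.1, ?_⟩
  rw [← inl_tau]
  exact h.tauD _ (compl_nonempty hF.1) _ hF.2

theorem pair0_torus (r : ZMod 31) : ({0, r} : Finset (ZMod 31)) ∈ torus := by
  have key : ∀ n ∈ List.range 31, inT [0, n] = true := by decide +kernel
  have h1 := Pool.H48.CP.torus_of_inT [0, r.val] (by simp) (key r.val (List.mem_range.2 (ZMod.val_lt r)))
  have e : fs [0, r.val] = {0, r} := by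
    simp [fs]
  rwa [e] at h1

theorem pair_KK (h : Perf C D g) {J : Finset (ZMod 5)} (hJ : J ≠ Finset.univ)
    (x y : ZMod 31) : ({x, y} : Finset (ZMod 31)) ∈ KK D J := by
  have h2 := torus_sub_KK h.toBase hJ (pair0_torus (y - x))
  have h3 := Pool.H48.CP.shift_all (shift_KK h) x _ h2
  have e : ({0, y - x} : Finset (ZMod 31)).image (· + x) = {x, y} := by
    rw [Finset.image_insert, Finset.image_singleton, zero_add, sub_add_cancel]
  rwa [e] at h3

theorem cij_coc (h : Perf C D g) (h3 : T3Stmt) {J : Finset (ZMod 5)}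
    {i j : ZMod 5} (hi : i ∈ Jᶜ) (hj : j ∈ Jᶜ) {F : Finset (ZMod 31)} (hF : F ∈ KK D J)
    {x y z : ZMod 31} (hx : x ∈ F) (hy : y ∈ F) (hz : z ∈ F) :
    cij g i j x y + cij g i j y z = cij g i j x z :=
  inc_face_add (h.downK (compl_nonempty hF.1)) (fq_cont h.toEqui h3 (compl_nonempty hF.1) hi hj)
    hF.2 (mem_inl.2 hx) (mem_inl.2 hy) (mem_inl.2 hz)

theorem exp_cij (h : Perf C D g) (h3 : T3Stmt) {J : Finset (ZMod 5)}
    (hJ : J ≠ Finset.univ) {i j : ZMod 5} (hi : i ∈ Jᶜ) (hj : j ∈ Jᶜ) (x y : ZMod 31) :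
    Circle.exp (cij g i j x y) * fq g i j (vtx (Sum.inl x)) = fq g i j (vtx (Sum.inl y)) := by
  have hp := pair_KK h hJ x y
  exact exp_inc_face (h.downK (compl_nonempty hJ)) (fq_cont h.toEqui h3 (compl_nonempty hJ) hi hj)
    hp.2 (mem_inl.2 (by simp)) (mem_inl.2 (by simp))

theorem circle_exp_sum {ι : Type*} (s : Finset ι) (f : ι → ℝ) :
    Circle.exp (∑ i ∈ s, f i) = ∏ i ∈ s, Circle.exp (f i) := by
  classical
  induction s using Finset.induction_on with
  | empty => simp
  | insert a s ha ih => rw [Finset.sum_insert ha, Finset.prod_insert ha, Circle.exp_add, ih]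

theorem sum_cij (h : Perf C D g) (h3 : T3Stmt) {J : Finset (ZMod 5)}
    (hJ : J ≠ Finset.univ) {i j : ZMod 5} (hi : i ∈ Jᶜ) (hj : j ∈ Jᶜ) (r : ZMod 31) :
    ∃ n : ℤ, ∑ x, cij g i j x (x + r) = 2 * Real.pi * n := by
  have h4 : Circle.exp (∑ x, cij g i j x (x + r)) = 1 := by
    rw [circle_exp_sum]
    have h5 : ∏ x : ZMod 31, (Circle.exp (cij g i j x (x + r)) * fq g i j (vtx (Sum.inl x))) =
        ∏ x : ZMod 31, fq g i j (vtx (Sum.inl x)) := by
      rw [Finset.prod_congr rfl fun x _ => exp_cij h h3 hJ hi hj x (x + r)]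
      exact Fintype.prod_equiv (Equiv.addRight r) _ _ (fun x => rfl)
    rw [Finset.prod_mul_distrib] at h5
    exact mul_eq_right.1 h5
  obtain ⟨m, hm⟩ := Circle.exp_eq_one.1 h4
  exact ⟨m, by rw [hm]; ring⟩

/-- translation by `t`, fixing the `pᵢ` -/
def tauT (t : ZMod 31) : Vt → Vt := Sum.map (fun x => x + t) id

theorem tauT_mem (h : Perf C D g) {I : Finset (ZMod 5)} (hI : I.Nonempty) (t : ZMod 31)
    {G : Finset Vt} (hG : G ∈ D I) : G.image (tauT t) ∈ D I := by
  have key : ∀ n : ℕ, G.image (tauT (n : ZMod 31)) ∈ D I := by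
    intro n
    induction n with
    | zero =>
      have e : tauT ((0 : ℕ) : ZMod 31) = id := by
        funext v; rcases v with x | k <;> simp [tauT]
      rw [e, Finset.image_id]; exact hG
    | succ n ih =>
      have e : G.image (tauT ((n + 1 : ℕ) : ZMod 31)) = (G.image (tauT (n : ZMod 31))).image tau := by
        rw [Finset.image_image]
        congr 1
        funext v
        rcases v with x | k
        · simp [tauT, tau, add_assoc]
        · simp [tauT, tau]
      rw [e]; exact h.tauD I hI _ ih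
  have := key t.val
  rwa [ZMod.natCast_zmod_val] at this

theorem sum_shift_zero (h : Perf C D g) (h3 : T3Stmt) {J : Finset (ZMod 5)} {i j : ZMod 5}
    (hi : i ∈ Jᶜ) (hj : j ∈ Jᶜ) {F : Finset (ZMod 31)} (hF : F ∈ PP D J) {x y : ZMod 31}
    (hx : x ∈ F) (hy : y ∈ F) : ∑ t, cij g i j t (t + (y - x)) = 0 := by
  obtain ⟨hJu, k, hk⟩ := hF
  have hJc := compl_nonempty hJu
  have hstep : ∀ t : ZMod 31, cij g i j (t + x) (t + y) =
      inc (fq g i j) (Sum.inr k) (Sum.inl (t + y)) - inc (fq g i j) (Sum.inr k) (Sum.inl (t + x)) := by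
    intro t
    have hs := tauT_mem h hJc t hk
    have hmem : ∀ z ∈ F, (Sum.inl (t + z) : Vt) ∈ (insert (Sum.inr k) (inl F)).image (tauT t) := by
      intro z hz
      refine Finset.mem_image.2 ⟨Sum.inl z, Finset.mem_insert_of_mem (mem_inl.2 hz), ?_⟩
      simp [tauT, add_comm]
    have hp : (Sum.inr k : Vt) ∈ (insert (Sum.inr k) (inl F)).image (tauT t) :=
      Finset.mem_image.2 ⟨Sum.inr k, Finset.mem_insert_self _ _, rfl⟩
    have e := inc_face_add (h.downK hJc) (fq_cont h.toEqui h3 hJc hi hj) hs hp (hmem x hx)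
      (hmem y hy)
    unfold cij
    linarith
  have e1 : ∑ t, cij g i j t (t + (y - x)) = ∑ t, cij g i j (t + x) (t + y) := by
    rw [← Equiv.sum_comp (Equiv.addRight x) (fun t => cij g i j t (t + (y - x)))]
    refine Finset.sum_congr rfl fun t _ => ?_
    simp only [Equiv.coe_addRight]
    congr 1
    ring
  rw [e1, Finset.sum_congr rfl fun t _ => hstep t, Finset.sum_sub_distrib]
  rw [← Equiv.sum_comp (Equiv.addRight (y - x))
    (fun t => inc (fq g i j) (Sum.inr k) (Sum.inl (t + x)))]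
  rw [sub_eq_zero]
  refine Finset.sum_congr rfl fun t _ => ?_
  simp only [Equiv.coe_addRight]
  congr 2
  ring

/-- independent integral cocycles on the stratum with index set `Jᶜ` -/
theorem cocycles (h : Perf C D g) (h3 : T3Stmt) (h4 : T4Stmt) (havg : AvgStmt)
    {J : Finset (ZMod 5)} (hJ : J ≠ Finset.univ) {j0 : ZMod 5} (hj0 : j0 ∈ Jᶜ) :
    ∃ N : ZMod 5 → ZMod 5 → ℤ, (∀ k ∈ (Jᶜ).erase j0, Good (KK D) (PP D) J (N k)) ∧
      (∀ m : ZMod 5 → ℤ, (∀ k, k ∉ (Jᶜ).erase j0 → m k = 0) →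
        (∀ l, ∑ k ∈ (Jᶜ).erase j0, m k * N k l = 0) → m = 0) := by
  classical
  have hmem : ∀ k ∈ (Jᶜ).erase j0, k ∈ Jᶜ := fun k hk => Finset.mem_of_mem_erase hk
  -- integers
  have hex : ∀ k : ZMod 5, ∀ r : ZMod 31, ∃ n : ℤ, k ∈ Jᶜ →
      ∑ x, cij g k j0 x (x + r) = 2 * Real.pi * n := by
    intro k r
    by_cases hk : k ∈ Jᶜ
    · obtain ⟨n, hn⟩ := sum_cij h h3 hJ hk hj0 r
      exact ⟨n, fun _ => hn⟩
    · exact ⟨0, fun hk' => absurd hk' hk⟩
  choose n hn using hex
  let N : ZMod 5 → ZMod 5 → ℤ := fun k l => n k ((2 : ZMod 31) ^ l.val)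
  have hN0 : ∀ k, N k 0 = n k 1 := fun k => by simp [N]
  have hN1 : ∀ k, N k 1 = n k 2 := fun k => by
    show n k ((2 : ZMod 31) ^ (1 : ZMod 5).val) = _; congr 1
  have hN2 : ∀ k, N k 2 = n k 4 := fun k => by
    show n k ((2 : ZMod 31) ^ (2 : ZMod 5).val) = _; congr 1
  have hN3 : ∀ k, N k 3 = n k 8 := fun k => by
    show n k ((2 : ZMod 31) ^ (3 : ZMod 5).val) = _; congr 1
  have hN4 : ∀ k, N k 4 = n k 16 := fun k => by
    show n k ((2 : ZMod 31) ^ (4 : ZMod 5).val) = _; congr 1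
  have htor := torus_sub_KK h.toBase hJ
  have hsh := shift_KK h (J := J)
  have hpi : (2 * Real.pi) ≠ 0 := by positivity
  refine ⟨N, fun k hk => ?_, fun m hm hz => ?_⟩
  · -- good
    have hkJ := hmem k hk
    obtain ⟨a1, a2, a3, -⟩ := havg (KK D J) htor hsh (cij g k j0)
      (fun F hF x hx y hy z hz => cij_coc h h3 hkJ hj0 hF hx hy hz)
      (fun r => ∑ x, cij g k j0 x (x + r)) (fun r => rfl)
    simp only [hn k _ hkJ] at a1 a2 a3
    have hval : ∀ r : ZMod 31, (n k r : ℝ) = (val (N k) r : ℝ) := by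
      intro r
      have e := a2 r
      have e2 : [2 * Real.pi * (n k 1 : ℝ), 2 * Real.pi * (n k 2 : ℝ), 2 * Real.pi * (n k 4 : ℝ),
          2 * Real.pi * (n k 8 : ℝ), 2 * Real.pi * (n k 16 : ℝ)] =
          [N k 0, N k 1, N k 2, N k 3, N k 4].map fun z : ℤ => 2 * Real.pi * (z : ℝ) := by
        simp only [List.map_cons, List.map_nil, hN0, hN1, hN2, hN3, hN4]
      rw [e2, vlR_cast] at e
      exact mul_left_cancel₀ hpi e
    refine ⟨?_, fun F hF x hx y hy z hz => ?_, fun F hF x hx y hy => ?_⟩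
    · rw [hN0, hN1, hN2, hN3, hN4]
      have e : 2 * Real.pi * ((n k 1 + n k 2 + n k 4 + n k 8 + n k 16 : ℤ) : ℝ) = 0 := by
        push_cast; linarith
      rcases mul_eq_zero.1 e with e | e
      · exact absurd e hpi
      · exact_mod_cast e
    · have e := a3 F hF x hx y hy z hz
      rw [hval, hval, hval, ← mul_add] at e
      exact_mod_cast mul_left_cancel₀ hpi e
    · have e := sum_shift_zero h h3 hkJ hj0 hF hx hy
      rw [hn k _ hkJ, hval] at e
      exact_mod_cast (mul_eq_zero.1 e).resolve_left hpi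
  · -- independence
    -- the combined cocycle
    let T := (Jᶜ).erase j0
    let c : ZMod 31 → ZMod 31 → ℝ := fun x y => ∑ k ∈ T, (m k : ℝ) * cij g k j0 x y
    have hcz : ∀ l : ZMod 5, ∑ x : ZMod 31, c x (x + (2 : ZMod 31) ^ l.val) = 0 := by
      intro l
      have e1 : ∑ x : ZMod 31, c x (x + (2 : ZMod 31) ^ l.val) =
          ∑ k ∈ T, (m k : ℝ) * ∑ x, cij g k j0 x (x + (2 : ZMod 31) ^ l.val) := by
        simp only [c]
        rw [Finset.sum_comm]
        simp only [Finset.mul_sum]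
      rw [e1]
      have e2 : ∀ k ∈ T, (m k : ℝ) * ∑ x, cij g k j0 x (x + (2 : ZMod 31) ^ l.val) =
          2 * Real.pi * ((m k * N k l : ℤ) : ℝ) := by
        intro k hk
        rw [hn k _ (hmem k hk)]
        push_cast; ring
      rw [Finset.sum_congr rfl e2, ← Finset.mul_sum, ← Int.cast_sum, hz l]
      simp
    obtain ⟨-, -, -, a4⟩ := havg (KK D J) htor hsh c
      (fun F hF x hx y hy z hz => by
        simp only [c]
        rw [← Finset.sum_add_distrib]
        refine Finset.sum_congr rfl fun k hk => ?_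
        rw [← mul_add, cij_coc h h3 (hmem k hk) hj0 hF hx hy hz])
      (fun r => ∑ x, c x (x + r)) (fun r => rfl)
    obtain ⟨f, hf⟩ := a4 (by simpa using hcz 0) (hcz 1) (hcz 2) (hcz 3) (hcz 4)
    -- the circle valued map
    let φ : (Vt → ℝ) → Circle := fun q => ∏ k ∈ T, (fq g k j0 q) ^ (m k)
    have hJc : (Jᶜ).Nonempty := compl_nonempty hJ
    have hun : (Finset.univ : Finset (ZMod 5)).Nonempty := Finset.univ_nonempty
    have hfqu : ∀ k, ContinuousOn (fq g k j0) (real (D Finset.univ)) := fun k =>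
      fq_cont h.toEqui h3 hun (Finset.mem_univ _) (Finset.mem_univ _)
    have hφc : ContinuousOn φ (real (D Finset.univ)) := by
      apply continuousOn_finset_prod
      intro k _
      exact (hfqu k).zpow (m k)
    have hinc : ∀ s ∈ D Finset.univ, ∀ x ∈ s, ∀ y ∈ s, inc φ x y =
        (Sum.elim f (fun _ => 0) y : ℝ) - Sum.elim f (fun _ => 0) x := by
      intro s hs x hx y hy
      obtain ⟨F, hF, rfl⟩ := (h.torus _).1 hs
      obtain ⟨x', rfl⟩ := exists_inl hx (fun k => not_inr_mem_inl)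
      obtain ⟨y', rfl⟩ := exists_inl hy (fun k => not_inr_mem_inl)
      have hce : ∀ k, ContinuousOn (fq g k j0)
          (Pool.Agent.H84.CL.splx ({Sum.inl x', Sum.inl y'} : Set Vt)) := fun k =>
        cont_edge (h.downK hun) (hfqu k) hs hx hy
      show inc (fun w => ∏ k ∈ T, (fq g k j0 w) ^ (m k)) (Sum.inl x') (Sum.inl y') = f y' - f x'
      rw [inc_prod T (f := fun k w => (fq g k j0 w) ^ (m k)) (fun k _ => (hce k).zpow (m k)),
        ← hf x' y']
      refine Finset.sum_congr rfl fun k _ => ?_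
      exact inc_zpow (hce k) (m k)
    have hx0 : ∀ s ∈ D Finset.univ, ∀ x ∈ s, ({Sum.inl 0, x} : Finset Vt) ∈ D Finset.univ := by
      intro s hs x hx
      obtain ⟨F, hF, rfl⟩ := (h.torus _).1 hs
      obtain ⟨x', rfl⟩ := exists_inl hx (fun k => not_inr_mem_inl)
      refine (h.torus _).2 ⟨{0, x'}, pair0_torus x', ?_⟩
      simp [inl]
    obtain ⟨G, hG, hGe⟩ := lift_global' (h.downK hun) hφc hx0 hinc
    -- pull back to CP4
    have hB : ∀ p ∈ B Finset.univ, (g p : Vt → ℝ) ∈ real (D Finset.univ) := by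
      intro p hp
      exact ⟨(g p).2.1, (g p).2.2.1, (h.mem_B hun p).1 hp⟩
    have hcont : ContinuousOn (fun p : CP4 => G (g p)) (B Finset.univ) :=
      hG.comp (continuous_subtype_val.comp g.continuous).continuousOn (fun p hp => hB p hp)
    have hmj : m j0 = 0 := hm j0 (by simp)
    refine h4 j0 m hmj _ hcont fun p hp => ?_
    have e1 := hGe (g p) (hB p hp)
    have e2 := congrArg (fun z : Circle => (z : ℂ)) e1
    simp only [φ] at e2
    rw [Circle.coe_exp] at e2
    rw [← e2]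
    have e3 : ((∏ k ∈ T, (fq g k j0 (g p)) ^ (m k) : Circle) : ℂ) =
        ∏ k ∈ T, (rat k j0 p) ^ (m k) := by
      rw [show ((∏ k ∈ T, (fq g k j0 (g p)) ^ (m k) : Circle) : ℂ) =
        ∏ k ∈ T, ((fq g k j0 (g p) : Circle) : ℂ) ^ (m k) from by
          rw [← Circle.coeHom_apply, map_prod]
          refine Finset.prod_congr rfl fun k _ => ?_
          simp]
      refine Finset.prod_congr rfl fun k _ => ?_
      congr 1
      unfold fq
      rw [Rq_apply, coe_circ]
      exact (h3 Finset.univ k j0 (Finset.mem_univ _) (Finset.mem_univ _)).2 p hp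
    rw [e3]
    symm
    apply Finset.prod_subset (Finset.subset_univ _)
    intro k _ hk
    rw [hm k hk, zpow_zero]

end Pool.H47.CP
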