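import Pool.Agent.H47.CP.Core2

set_option autoImplicit false

namespace Pool.H47.CP

variable {K P : Finset (ZMod 5) → Set (Finset (ZMod 31))}

/-- relation coming from the triangle `x, y, w` -/
theorem rel_of {J : Finset (ZMod 5)} {N : ZMod 5 → ℤ} (h : Good K P J N) {w x y : ℕ} {F : List ℕ}
    (hF : ∀ x ∈ F, x < 31) (hK : fs (w :: F) ∈ K J) (hx : x ∈ F) (hy : y ∈ F) :
    vl [N 0, N 1, N 2, N 3, N 4] ((y + 31 - x) % 31) +
      vl [N 0, N 1, N 2, N 3, N 4] ((w + 31 - y) % 31) =
      vl [N 0, N 1, N 2, N 3, N 4] ((w + 31 - x) % 31) := by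
  have h1 := h.2.1 _ hK (x : ZMod 31) (mem_fs.2 ⟨x, List.mem_cons_of_mem _ hx, rfl⟩)
    (y : ZMod 31) (mem_fs.2 ⟨y, List.mem_cons_of_mem _ hy, rfl⟩)
    (w : ZMod 31) (mem_fs.2 ⟨w, List.mem_cons_self, rfl⟩)
  unfold val at h1
  rw [sub_val (hF x hx).le, sub_val (hF y hy).le, sub_val (hF x hx).le] at h1
  exact h1

/-- the ten possible relations -/
theorem classify (hK : KS K P) : ∃ s : ZMod 5,
    (∀ N, Good K P {0} N → 2 * N s = N (s + 1)) ∨
    (∀ N, Good K P {0} N → 2 * N s + N (s + 1) = N (s + 2)) := by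
  have hF : ∀ x ∈ [0, 1, 3, 7, 15], x < 31 := by decide
  have hP : fs [0, 1, 3, 7, 15] ∉ P {0} := by
    intro hP
    obtain ⟨N, hN, ha, hb, hg⟩ := hK.coc1 0 0 1
    have hv : ∀ x ∈ [0, 1, 3, 7, 15], ∀ y ∈ [0, 1, 3, 7, 15],
        vl [N 0, N 1, N 2, N 3, N 4] ((y + 31 - x) % 31) = 0 := by
      intro x hx y hy
      have h1 := hg.2.2 _ hP (x : ZMod 31) (mem_fs.2 ⟨x, hx, rfl⟩) (y : ZMod 31)
        (mem_fs.2 ⟨y, hy, rfl⟩)
      unfold val at h1
      rwa [sub_val (hF x hx).le] at h1
    have h1 := hv 3 (by decide) 7 (by decide)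
    have h2 := hv 7 (by decide) 15 (by decide)
    have h3 := hv 15 (by decide) 0 (by decide)
    simp [vl] at h1 h2 h3
    exact hN (funext5 ha hb h1 h2 h3)
  obtain ⟨w, hw31, hwF, -, hmem⟩ := ext_step hK (J := ∅) (J' := {0}) (by simp)
    (by decide) (by simp) [] (by simp) [0, 1, 3, 7, 15] (by decide) hP ((hK.tor _).2 T0)
  have R : ∀ N, Good K P {0} N → ∀ x ∈ [0, 1, 3, 7, 15], ∀ y ∈ [0, 1, 3, 7, 15],
      vl [N 0, N 1, N 2, N 3, N 4] ((y + 31 - x) % 31) +
      vl [N 0, N 1, N 2, N 3, N 4] ((w + 31 - y) % 31) =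
      vl [N 0, N 1, N 2, N 3, N 4] ((w + 31 - x) % 31) :=
    fun N hN x hx y hy => rel_of hN hF hmem hx hy
  have bad : ∀ a b : ZMod 5, (∀ N : ZMod 5 → ℤ, N a = 0 → N b = 0 → Good K P {0} N →
      N 0 = 0 ∧ N 1 = 0 ∧ N 2 = 0 ∧ N 3 = 0 ∧ N 4 = 0) → False := by
    intro a b h
    obtain ⟨N, hN, ha, hb, hg⟩ := hK.coc1 0 a b
    obtain ⟨h0, h1, h2, h3, h4⟩ := h N ha hb hg
    exact hN (funext5 h0 h1 h2 h3 h4)
  interval_cases w
  · exact absurd hwF (by decide)
  · exact absurd hwF (by decide)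
  · -- 2
    refine ⟨0, Or.inl fun N hN => ?_⟩
    have h1 := R N hN 0 (by decide) 1 (by decide)
    simp [vl] at h1; show 2 * N 0 = N 1; linarith
  · exact absurd hwF (by decide)
  · -- 4
    refine ⟨0, Or.inr fun N hN => ?_⟩
    have h1 := R N hN 0 (by decide) 1 (by decide)
    simp [vl] at h1; show 2 * N 0 + N 1 = N 2; linarith
  · -- 5
    refine ⟨1, Or.inl fun N hN => ?_⟩
    have h1 := R N hN 0 (by decide) 3 (by decide)
    simp [vl] at h1; show 2 * N 1 = N 2; linarith
  · -- 6
    refine (bad 0 3 fun N ha hb hN => ?_).elim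
    have h1 := R N hN 0 (by decide) 1 (by decide)
    have h2 := R N hN 0 (by decide) 3 (by decide)
    have h3 := hN.1
    simp [vl] at h1 h2; omega
  · exact absurd hwF (by decide)
  · -- 8
    refine ⟨3, Or.inr fun N hN => ?_⟩
    have h1 := R N hN 0 (by decide) 1 (by decide)
    have h3 := hN.1
    simp [vl] at h1; show 2 * N 3 + N 4 = N 0; linarith
  · -- 9
    refine ⟨1, Or.inr fun N hN => ?_⟩
    have h1 := R N hN 0 (by decide) 3 (by decide)
    simp [vl] at h1; show 2 * N 1 + N 2 = N 3; linarith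
  · -- 10
    refine (bad 0 2 fun N ha hb hN => ?_).elim
    have h1 := R N hN 0 (by decide) 1 (by decide)
    have h2 := R N hN 0 (by decide) 3 (by decide)
    have h3 := hN.1
    simp [vl] at h1 h2; omega
  · -- 11
    refine ⟨2, Or.inl fun N hN => ?_⟩
    have h1 := R N hN 0 (by decide) 7 (by decide)
    simp [vl] at h1; show 2 * N 2 = N 3; linarith
  · -- 12
    refine (bad 0 1 fun N ha hb hN => ?_).elim
    have h1 := R N hN 0 (by decide) 1 (by decide)
    have h2 := R N hN 0 (by decide) 7 (by decide)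
    have h3 := hN.1
    simp [vl] at h1 h2; omega
  · -- 13
    refine (bad 0 1 fun N ha hb hN => ?_).elim
    have h1 := R N hN 0 (by decide) 3 (by decide)
    have h2 := R N hN 0 (by decide) 7 (by decide)
    have h3 := hN.1
    simp [vl] at h1 h2; omega
  · -- 14
    refine (bad 0 1 fun N ha hb hN => ?_).elim
    have h1 := R N hN 0 (by decide) 3 (by decide)
    have h2 := R N hN 0 (by decide) 7 (by decide)
    have h3 := hN.1
    simp [vl] at h1 h2; omega
  · exact absurd hwF (by decide)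
  · -- 16
    refine ⟨4, Or.inl fun N hN => ?_⟩
    have h1 := R N hN 0 (by decide) 1 (by decide)
    have h3 := hN.1
    simp [vl] at h1; show 2 * N 4 = N 0; linarith
  · -- 17
    refine ⟨4, Or.inr fun N hN => ?_⟩
    have h1 := R N hN 0 (by decide) 3 (by decide)
    have h3 := hN.1
    simp [vl] at h1; show 2 * N 4 + N 0 = N 1; linarith
  · -- 18
    refine (bad 0 2 fun N ha hb hN => ?_).elim
    have h1 := R N hN 0 (by decide) 1 (by decide)
    have h2 := R N hN 0 (by decide) 3 (by decide)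
    have h3 := hN.1
    simp [vl] at h1 h2; omega
  · -- 19
    refine ⟨2, Or.inr fun N hN => ?_⟩
    have h1 := R N hN 0 (by decide) 7 (by decide)
    simp [vl] at h1; show 2 * N 2 + N 3 = N 4; linarith
  · -- 20
    refine (bad 0 1 fun N ha hb hN => ?_).elim
    have h1 := R N hN 0 (by decide) 1 (by decide)
    have h2 := R N hN 0 (by decide) 7 (by decide)
    have h3 := hN.1
    simp [vl] at h1 h2; omega
  · -- 21
    refine (bad 0 1 fun N ha hb hN => ?_).elim
    have h1 := R N hN 0 (by decide) 3 (by decide)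
    have h2 := R N hN 0 (by decide) 7 (by decide)
    have h3 := hN.1
    simp [vl] at h1 h2; omega
  · -- 22
    refine (bad 0 1 fun N ha hb hN => ?_).elim
    have h1 := R N hN 0 (by decide) 3 (by decide)
    have h2 := R N hN 0 (by decide) 7 (by decide)
    have h3 := hN.1
    simp [vl] at h1 h2; omega
  · -- 23
    refine ⟨3, Or.inl fun N hN => ?_⟩
    have h1 := R N hN 0 (by decide) 15 (by decide)
    simp [vl] at h1; show 2 * N 3 = N 4; linarith
  · -- 24
    refine (bad 0 1 fun N ha hb hN => ?_).elim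
    have h1 := R N hN 0 (by decide) 1 (by decide)
    have h2 := R N hN 0 (by decide) 15 (by decide)
    have h3 := hN.1
    simp [vl] at h1 h2; omega
  · -- 25
    refine (bad 0 1 fun N ha hb hN => ?_).elim
    have h1 := R N hN 0 (by decide) 3 (by decide)
    have h2 := R N hN 0 (by decide) 15 (by decide)
    have h3 := hN.1
    simp [vl] at h1 h2; omega
  · -- 26
    refine (bad 0 1 fun N ha hb hN => ?_).elim
    have h1 := R N hN 0 (by decide) 3 (by decide)
    have h2 := R N hN 0 (by decide) 15 (by decide)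
    have h3 := hN.1
    simp [vl] at h1 h2; omega
  · -- 27
    refine (bad 0 1 fun N ha hb hN => ?_).elim
    have h1 := R N hN 0 (by decide) 7 (by decide)
    have h2 := R N hN 0 (by decide) 15 (by decide)
    have h3 := hN.1
    simp [vl] at h1 h2; omega
  · -- 28
    refine (bad 0 1 fun N ha hb hN => ?_).elim
    have h1 := R N hN 0 (by decide) 1 (by decide)
    have h2 := R N hN 0 (by decide) 7 (by decide)
    have h3 := hN.1
    simp [vl] at h1 h2; omega
  · -- 29
    refine (bad 0 1 fun N ha hb hN => ?_).elim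
    have h1 := R N hN 0 (by decide) 3 (by decide)
    have h2 := R N hN 0 (by decide) 7 (by decide)
    have h3 := hN.1
    simp [vl] at h1 h2; omega
  · -- 30
    refine (bad 0 1 fun N ha hb hN => ?_).elim
    have h1 := R N hN 0 (by decide) 3 (by decide)
    have h2 := R N hN 0 (by decide) 7 (by decide)
    have h3 := hN.1
    simp [vl] at h1 h2; omega

end Pool.H47.CP
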