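import Pool.Agent.H47.CP.Local

/-! # Counting modulo 2 in an equilibrium triangulation -/

set_option autoImplicit false

namespace Pool.H47.CP

open Classical in
/-- vertices `w` such that `E ∪ {w}` is a simplex with label set `I` -/
noncomputable def up (C : Set (Finset Vt)) (D : Finset (ZMod 5) → Set (Finset Vt)) (E : Finset Vt)
    (I : Finset (ZMod 5)) : Finset Vt :=
  Finset.univ.filter fun w => w ∉ E ∧ insert w E ∈ C ∧ Lam D (insert w E) = I

theorem mem_up {C : Set (Finset Vt)} {D : Finset (ZMod 5) → Set (Finset Vt)} {E : Finset Vt}
    {I : Finset (ZMod 5)} {w : Vt} :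
    w ∈ up C D E I ↔ w ∉ E ∧ insert w E ∈ C ∧ Lam D (insert w E) = I := by simp [up]

variable {C : Set (Finset Vt)} {D : Finset (ZMod 5) → Set (Finset Vt)} {g : CP4 ≃ₜ real C}

/-- dimension bound -/
theorem Equi.N2 (h : Equi C D g) (h1 : T1Stmt) (hdim : ∀ G ∈ C, G.card ≤ 9) :
    ∀ (n : ℕ) (M : Finset Vt), M ∈ C → 9 - M.card = n → (Lam D M).card + M.card ≤ 10 := by
  intro n
  induction n using Nat.strong_induction_on with
  | _ n ih =>
    intro M hM hn
    by_cases hc : (Lam D M).card ≤ 1
    · have := hdim M hM; omega
    · obtain ⟨i, hi⟩ := h.lam_nonempty hM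
      have hI' : ((Lam D M).erase i).card = (Lam D M).card - 1 := Finset.card_erase_of_mem hi
      have hne : ((Lam D M).erase i).Nonempty := by
        rw [← Finset.card_pos, hI']; omega
      obtain ⟨H, hH, hMH, hL⟩ := h.exists_up h1 hM hne (Finset.erase_subset _ _)
      have hlt : M.card < H.card := by
        apply Finset.card_lt_card
        refine lt_of_le_of_ne hMH ?_
        rintro rfl
        have := congrArg Finset.card hL
        rw [hI'] at this; omega
      have hH9 := hdim H hH
      have := ih (9 - H.card) (by omega) H hH rfl
      rw [hL, hI'] at this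
      omega

theorem Equi.dim_le (h : Equi C D g) (h1 : T1Stmt) (hdim : ∀ G ∈ C, G.card ≤ 9)
    {M : Finset Vt} (hM : M ∈ C) : (Lam D M).card + M.card ≤ 10 :=
  h.N2 h1 hdim _ M hM rfl

/-- exactly one simplex of the next stratum -/
theorem Equi.N1 (h : Equi C D g) (h1 : T1Stmt) (h2 : T2Stmt) (hdim : ∀ G ∈ C, G.card ≤ 9)
    {M : Finset Vt} (hM : M ∈ C) (hc : (Lam D M).card + M.card = 10) {i : ZMod 5}
    (hi : i ∈ Lam D M) (h2c : 2 ≤ (Lam D M).card) : (up C D M ((Lam D M).erase i)).card = 1 := by
  have hI' : ((Lam D M).erase i).card = (Lam D M).card - 1 := Finset.card_erase_of_mem hi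
  have hne : ((Lam D M).erase i).Nonempty := by
    rw [← Finset.card_pos, hI']; omega
  have hneq : (Lam D M).erase i ≠ Lam D M := by
    intro he
    have := congrArg Finset.card he
    rw [hI'] at this; omega
  have hb : ∀ H ∈ C, M ⊆ H → Lam D H = (Lam D M).erase i → H.card ≤ M.card + 1 := by
    intro H hH _ hL
    have := h.dim_le h1 hdim hH
    rw [hL, hI'] at this; omega
  rw [Finset.card_eq_one]
  obtain ⟨H, hH, hMH, hL⟩ := h.exists_up h1 hM hne (Finset.erase_subset _ _)
  have hss : M ⊂ H := by
    refine lt_of_le_of_ne hMH ?_
    rintro rfl
    exact hneq hL.symm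
  obtain ⟨w, hwM, hwi⟩ := Finset.ssubset_iff.1 hss
  have hHe : insert w M = H := by
    apply Finset.eq_of_subset_of_card_le hwi
    rw [Finset.card_insert_of_notMem hwM]; exact hb H hH hMH hL
  refine ⟨w, ?_⟩
  ext w'
  rw [mem_up, Finset.mem_singleton]
  constructor
  · rintro ⟨a, b, c⟩
    exact h.unique_up h2 hM hne (Finset.erase_subset _ _) hneq hb a b c hwM (hHe ▸ hH)
      (by rw [hHe]; exact hL)
  · rintro rfl
    exact ⟨hwM, hHe ▸ hH, by rw [hHe]; exact hL⟩

/-- parity at the interior ridges of every stratum -/
theorem Equi.Q (h : Equi C D g) (h1 : T1Stmt) (h2 : T2Stmt) (hdim : ∀ G ∈ C, G.card ≤ 9)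
    (hridge : ∀ E ∈ C, E.card = 8 → ∀ W : Finset Vt,
      (∀ w, w ∈ W ↔ w ∉ E ∧ insert w E ∈ C) → Even W.card) :
    ∀ (n : ℕ) (E : Finset Vt), E ∈ C → (Lam D E).card = n → n + E.card = 9 →
      Even (up C D E (Lam D E)).card := by
  classical
  intro n
  induction n using Nat.strong_induction_on with
  | _ n ih =>
    intro E hE hn hcard
    have hnpos : 0 < n := by
      rw [← hn, Finset.card_pos]; exact h.lam_nonempty hE
    have hEne := h.ne E hE
    by_cases hn1 : n = 1
    · -- base
      subst hn1
      apply hridge E hE (by omega)
      intro w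
      rw [mem_up]
      constructor
      · rintro ⟨a, b, -⟩; exact ⟨a, b⟩
      · rintro ⟨a, b⟩
        refine ⟨a, b, ?_⟩
        have hsub : Lam D (insert w E) ⊆ Lam D E := h.lam_anti hEne (Finset.subset_insert _ _)
        apply Finset.eq_of_subset_of_card_le hsub
        rw [hn]
        exact Finset.card_pos.2 (h.lam_nonempty b)
    · obtain ⟨i, hi⟩ := h.lam_nonempty hE
      set I := (Lam D E).erase i with hIdef
      have hIc : I.card = n - 1 := by rw [hIdef, Finset.card_erase_of_mem hi, hn]
      -- the double sum
      let φ : Vt → Vt → ZMod 2 := fun w w' =>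
        if w ∉ E ∧ w' ∉ insert w E ∧ insert w' (insert w E) ∈ C ∧
          Lam D (insert w' (insert w E)) = I then 1 else 0
      have hsymm : ∀ w w', φ w w' = φ w' w := by
        intro w w'
        have e : insert w' (insert w E) = insert w (insert w' E) := Finset.insert_comm _ _ _
        simp only [φ]
        congr 1
        rw [eq_iff_iff]
        constructor
        · rintro ⟨a, b, c, d⟩
          rw [Finset.mem_insert, not_or] at b
          rw [e] at c d
          exact ⟨b.2, by rw [Finset.mem_insert, not_or]; exact ⟨fun he => b.1 he.symm, a⟩, c, d⟩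
        · rintro ⟨a, b, c, d⟩
          rw [Finset.mem_insert, not_or] at b
          rw [← e] at c d
          exact ⟨b.2, by rw [Finset.mem_insert, not_or]; exact ⟨fun he => b.1 he.symm, a⟩, c, d⟩
      have hdiag : ∀ w, φ w w = 0 := by
        intro w
        simp only [φ]
        rw [if_neg]
        rintro ⟨-, b, -⟩
        exact b (Finset.mem_insert_self _ _)
      have htot : ∑ p : Vt × Vt, φ p.1 p.2 = 0 := by
        apply Finset.sum_involution (fun p _ => (p.2, p.1))
        · intro p _
          rw [hsymm p.2 p.1]
          exact CharTwo.add_self_eq_zero _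
        · intro p _ hp he
          have : p.1 = p.2 := (congrArg Prod.fst he).symm
          rw [← this] at hp
          exact hp (hdiag _)
        · intro p _; exact Finset.mem_univ _
        · intro p _; rfl
      rw [Fintype.sum_prod_type] at htot
      have hinner : ∀ w, ∑ w', φ w w' = if w ∈ up C D E (Lam D E) then 1 else 0 := by
        intro w
        have hcount : ∑ w', φ w w' =
            if w ∉ E then ((up C D (insert w E) I).card : ZMod 2) else 0 := by
          by_cases hw : w ∈ E
          · rw [if_neg (not_not.2 hw)]
            apply Finset.sum_eq_zero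
            intro w' _
            simp only [φ]
            rw [if_neg]
            rintro ⟨a, -⟩; exact a hw
          · rw [if_pos hw]
            have e1 : ∀ w', φ w w' = if w' ∈ up C D (insert w E) I then 1 else 0 := by
              intro w'
              simp only [φ]
              congr 1
              rw [eq_iff_iff, mem_up]
              constructor
              · rintro ⟨_, b, c, d⟩; exact ⟨b, c, d⟩
              · rintro ⟨b, c, d⟩; exact ⟨hw, b, c, d⟩
            rw [Finset.sum_congr rfl (fun w' _ => e1 w'), Finset.sum_boole,
              Finset.filter_mem_eq_inter, Finset.univ_inter]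
        rw [hcount]
        by_cases hw : w ∈ E
        · rw [if_neg (not_not.2 hw), if_neg]
          rw [mem_up]; rintro ⟨a, -⟩; exact a hw
        · rw [if_pos hw]
          by_cases hC : insert w E ∈ C
          · have hcardM : (insert w E).card = E.card + 1 := Finset.card_insert_of_notMem hw
            have hsub : Lam D (insert w E) ⊆ Lam D E := h.lam_anti hEne (Finset.subset_insert _ _)
            by_cases hL : Lam D (insert w E) = Lam D E
            · rw [if_pos (mem_up.2 ⟨hw, hC, hL⟩)]
              have := h.N1 h1 h2 hdim hC (i := i) (by rw [hL, hcardM, hn]; omega)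
                (by rw [hL]; exact hi) (by rw [hL, hn]; omega)
              rw [hL] at this
              rw [this]; simp
            · rw [if_neg (fun hu => hL (mem_up.1 hu).2.2)]
              by_cases hL2 : Lam D (insert w E) = I
              · have hev := ih (n - 1) (by omega) (insert w E) hC (by rw [hL2, hIc])
                  (by rw [hcardM]; omega)
                rw [hL2] at hev
                obtain ⟨k, hk⟩ := hev
                rw [hk]; push_cast
                exact CharTwo.add_self_eq_zero _
              · have : up C D (insert w E) I = ∅ := by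
                  rw [Finset.eq_empty_iff_forall_notMem]
                  intro w' hw'
                  obtain ⟨a, b, c⟩ := mem_up.1 hw'
                  have hs2 : I ⊆ Lam D (insert w E) := by
                    rw [← c]; exact h.lam_anti (h.ne _ hC) (Finset.subset_insert _ _)
                  have hcle : (Lam D (insert w E)).card ≤ n := by
                    rw [← hn]; exact Finset.card_le_card hsub
                  have hcge : n - 1 ≤ (Lam D (insert w E)).card := by
                    rw [← hIc]; exact Finset.card_le_card hs2
                  rcases Nat.lt_or_ge (Lam D (insert w E)).card n with hlt | hge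
                  · exact hL2 (Finset.eq_of_subset_of_card_le hs2 (by omega)).symm
                  · exact hL (Finset.eq_of_subset_of_card_le hsub (by omega))
                rw [this]; simp
          · rw [if_neg (fun hu => hC (mem_up.1 hu).2.1)]
            have : up C D (insert w E) I = ∅ := by
              rw [Finset.eq_empty_iff_forall_notMem]
              intro w' hw'
              obtain ⟨a, b, c⟩ := mem_up.1 hw'
              exact hC (h.cdown _ b _ (Finset.subset_insert _ _) (Finset.insert_nonempty _ _))
            rw [this]; simp
      rw [Finset.sum_congr rfl (fun w _ => hinner w), Finset.sum_boole] at htot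
      rw [Finset.filter_mem_eq_inter, Finset.univ_inter] at htot
      rwa [ZMod.natCast_eq_zero_iff_even] at htot

end Pool.H47.CP
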