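import Pool.Agent.H47.CP.Defs

/-! # Local structure of an equilibrium triangulation -/

set_option autoImplicit false

namespace Pool.H47.CP

/-- support of a point of the realization -/
noncomputable def supp (f : Vt → ℝ) : Finset Vt := Finset.univ.filter fun v => f v ≠ 0

theorem mem_supp {f : Vt → ℝ} {v : Vt} : v ∈ supp f ↔ f v ≠ 0 := by simp [supp]

theorem mem_real {C : Set (Finset Vt)} {f : Vt → ℝ} :
    f ∈ real C ↔ (∀ v, 0 ≤ f v) ∧ ∑ v, f v = 1 ∧ supp f ∈ C := Iff.rfl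

/-- barycenter of a simplex -/
noncomputable def bary (G : Finset Vt) : Vt → ℝ := fun v => if v ∈ G then (G.card : ℝ)⁻¹ else 0

theorem supp_bary {G : Finset Vt} (hG : G.Nonempty) : supp (bary G) = G := by
  ext v
  rw [mem_supp]
  have : (G.card : ℝ) ≠ 0 := by exact_mod_cast (Finset.card_pos.2 hG).ne'
  by_cases h : v ∈ G <;> simp [bary, h, this]

theorem bary_mem {C : Set (Finset Vt)} {G : Finset Vt} (hG : G.Nonempty) (hC : G ∈ C) :
    bary G ∈ real C := by
  refine ⟨fun v => ?_, ?_, ?_⟩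
  · unfold bary; split_ifs <;> positivity
  · have : (G.card : ℝ) ≠ 0 := by exact_mod_cast (Finset.card_pos.2 hG).ne'
    simp only [bary, Finset.sum_ite_mem, Finset.univ_inter, Finset.sum_const, nsmul_eq_mul]
    exact mul_inv_cancel₀ this
  · have := supp_bary hG
    unfold supp at this
    rw [this]; exact hC

/-- the data of an equilibrium triangulation -/
structure Equi (C : Set (Finset Vt)) (D : Finset (ZMod 5) → Set (Finset Vt))
    (g : CP4 ≃ₜ real C) : Prop where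
  ne : ∀ F ∈ C, F.Nonempty
  cdown : ∀ F ∈ C, ∀ G ⊆ F, G.Nonempty → G ∈ C
  sub : ∀ I, I.Nonempty → D I ⊆ C
  down : ∀ I, I.Nonempty → ∀ F ∈ D I, ∀ G ⊆ F, G.Nonempty → G ∈ D I
  img : ∀ I, I.Nonempty → (fun p => (g p : Vt → ℝ)) '' B I = real (D I)

variable {C : Set (Finset Vt)} {D : Finset (ZMod 5) → Set (Finset Vt)} {g : CP4 ≃ₜ real C}

/-- labels of a simplex -/
noncomputable def Lam (D : Finset (ZMod 5) → Set (Finset Vt)) (G : Finset Vt) : Finset (ZMod 5) :=
  open Classical in Finset.univ.filter fun i => G ∈ D {i}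

theorem mem_Lam {G : Finset Vt} {i : ZMod 5} : i ∈ Lam D G ↔ G ∈ D {i} := by
  simp [Lam]

theorem Equi.mem_B (h : Equi C D g) {I : Finset (ZMod 5)} (hI : I.Nonempty) (p : CP4) :
    p ∈ B I ↔ supp (g p) ∈ D I := by
  constructor
  · intro hp
    have : (g p : Vt → ℝ) ∈ real (D I) := by rw [← h.img I hI]; exact ⟨p, hp, rfl⟩
    exact this.2.2
  · intro hp
    have h1 : (g p : Vt → ℝ) ∈ real (D I) := ⟨(g p).2.1, (g p).2.2.1, hp⟩
    rw [← h.img I hI] at h1
    obtain ⟨q, hq, he⟩ := h1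
    have : q = p := g.injective (Subtype.ext he)
    rwa [this] at hq

theorem mem_B_iff_forall {I : Finset (ZMod 5)} {p : CP4} : p ∈ B I ↔ ∀ i ∈ I, p ∈ B {i} := by
  simp [B]

theorem exists_mem_B (p : CP4) : ∃ i, p ∈ B {i} := by
  obtain ⟨i, -, hi⟩ := Finset.exists_max_image (Finset.univ : Finset (ZMod 5))
    (fun i => ‖p.rep i‖) ⟨0, Finset.mem_univ _⟩
  exact ⟨i, fun k hk j => by rw [Finset.mem_singleton.1 hk]; exact hi j (Finset.mem_univ _)⟩

theorem B_nonempty_of_subset {I I' : Finset (ZMod 5)} (h : I' ⊆ I) {p : CP4} (hp : p ∈ B I) :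
    p ∈ B I' := fun i hi => hp i (h hi)

theorem Equi.mem_Lam_supp (h : Equi C D g) (p : CP4) (i : ZMod 5) :
    i ∈ Lam D (supp (g p)) ↔ p ∈ B {i} := by
  rw [mem_Lam, h.mem_B (Finset.singleton_nonempty i)]

/-- the point of `ℂP⁴` at the barycenter -/
noncomputable def Equi.pt (h : Equi C D g) {G : Finset Vt} (hG : G ∈ C) : CP4 :=
  g.symm ⟨bary G, bary_mem (h.ne G hG) hG⟩

theorem Equi.g_pt (h : Equi C D g) {G : Finset Vt} (hG : G ∈ C) :
    (g (h.pt hG) : Vt → ℝ) = bary G := by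
  unfold Equi.pt
  rw [Homeomorph.apply_symm_apply]

theorem Equi.supp_pt (h : Equi C D g) {G : Finset Vt} (hG : G ∈ C) :
    supp (g (h.pt hG)) = G := by
  rw [h.g_pt, supp_bary (h.ne G hG)]

theorem Equi.mem_D (h : Equi C D g) {I : Finset (ZMod 5)} (hI : I.Nonempty) {G : Finset Vt}
    (hG : G ∈ C) : G ∈ D I ↔ I ⊆ Lam D G := by
  have e := h.supp_pt hG
  constructor
  · intro hD i hi
    rw [← e, h.mem_Lam_supp]
    rw [← e, ← h.mem_B hI] at hD
    exact mem_B_iff_forall.1 hD i hi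
  · intro hs
    rw [← e, ← h.mem_B hI, mem_B_iff_forall]
    intro i hi
    rw [← h.mem_Lam_supp, e]
    exact hs hi

theorem Equi.mem_relB (h : Equi C D g) {I : Finset (ZMod 5)} (p : CP4) :
    p ∈ relB I ↔ Lam D (supp (g p)) = I := by
  constructor
  · rintro ⟨h1, h2⟩
    ext i
    rw [h.mem_Lam_supp]
    constructor
    · intro hi
      by_contra hn
      exact h2 i hn hi
    · intro hi
      exact mem_B_iff_forall.1 h1 i hi
  · rintro rfl
    refine ⟨mem_B_iff_forall.2 fun i hi => (h.mem_Lam_supp p i).1 hi, fun l hl hp => ?_⟩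
    exact hl ((h.mem_Lam_supp p l).2 hp)

/-- F1 -/
theorem Equi.lam_nonempty (h : Equi C D g) {G : Finset Vt} (hG : G ∈ C) :
    (Lam D G).Nonempty := by
  obtain ⟨i, hi⟩ := exists_mem_B (h.pt hG)
  refine ⟨i, ?_⟩
  rw [← h.supp_pt hG, h.mem_Lam_supp]; exact hi

theorem Equi.lam_anti (h : Equi C D g) {G H : Finset Vt} (hG : G.Nonempty) (hGH : G ⊆ H) :
    Lam D H ⊆ Lam D G := by
  intro i hi
  rw [mem_Lam] at hi ⊢
  exact h.down _ (Finset.singleton_nonempty i) H hi G hGH hG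

/-- open star of a simplex -/
def Equi.star (_ : Equi C D g) (M : Finset Vt) : Set CP4 := {p | ∀ v ∈ M, (g p : Vt → ℝ) v ≠ 0}

theorem continuous_coord (g : CP4 ≃ₜ real C) (v : Vt) : Continuous fun p => (g p : Vt → ℝ) v :=
  (continuous_apply v).comp (continuous_subtype_val.comp g.continuous)

theorem Equi.isOpen_star (h : Equi C D g) (M : Finset Vt) : IsOpen (h.star M) := by
  have : h.star M = ⋂ v ∈ M, {p | (g p : Vt → ℝ) v ≠ 0} := by
    ext p; simp [Equi.star]
  rw [this]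
  exact isOpen_biInter_finset fun v _ => isOpen_ne_fun (continuous_coord g v) continuous_const

theorem Equi.mem_star (h : Equi C D g) {M : Finset Vt} {p : CP4} :
    p ∈ h.star M ↔ M ⊆ supp (g p) :=
  ⟨fun hp v hv => mem_supp.2 (hp v hv), fun hp v hv => mem_supp.1 (hp hv)⟩

/-- F2 -/
theorem Equi.exists_up (h : Equi C D g) (h1 : T1Stmt) {M : Finset Vt} (hM : M ∈ C)
    {I' : Finset (ZMod 5)} (hI' : I'.Nonempty) (hs : I' ⊆ Lam D M) :
    ∃ H ∈ C, M ⊆ H ∧ Lam D H = I' := by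
  have hp : h.pt hM ∈ B I' := by
    rw [mem_B_iff_forall]
    intro i hi
    rw [← h.mem_Lam_supp, h.supp_pt hM]; exact hs hi
  have hcl := h1 I' hI' _ hp
  rw [mem_closure_iff] at hcl
  obtain ⟨q, hq1, hq2⟩ := hcl (h.star M) (h.isOpen_star M)
    (h.mem_star.2 (by rw [h.supp_pt hM]))
  refine ⟨supp (g q), (g q).2.2.2, h.mem_star.1 hq1, (h.mem_relB q).1 hq2⟩

/-- a point near the barycenter of `M` in the open simplex `M ∪ {w}` -/
theorem Equi.exists_near (h : Equi C D g) {M : Finset Vt} (hM : M ∈ C) {w : Vt} (hw : w ∉ M)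
    (hMw : insert w M ∈ C) {V : Set CP4} (hV : IsOpen V) (hpV : h.pt hM ∈ V) :
    ∃ q ∈ V, supp (g q) = insert w M := by
  have hne := h.ne M hM
  -- the segment
  let f : ℝ → Vt → ℝ := fun t v => (1 - t) * bary M v + t * (if v = w then 1 else 0)
  have hsupp : ∀ t ∈ Set.Ioo (0 : ℝ) 1, supp (f t) = insert w M := by
    intro t ht
    ext v
    rw [mem_supp, Finset.mem_insert]
    have hc : (0 : ℝ) < (M.card : ℝ)⁻¹ := by
      have : (0 : ℝ) < M.card := by exact_mod_cast Finset.card_pos.2 hne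
      positivity
    by_cases hvw : v = w
    · subst hvw
      simp only [f, bary, hw, if_false, if_true, mul_zero, zero_add, mul_one, true_or, iff_true]
      exact ht.1.ne'
    · by_cases hv : v ∈ M
      · simp only [f, bary, hv, hvw, if_true, if_false, mul_zero, add_zero, or_true, iff_true]
        have : (0 : ℝ) < 1 - t := by linarith [ht.2]
        positivity
      · simp [f, bary, hv, hvw]
  have hmem : ∀ t ∈ Set.Ioo (0 : ℝ) 1, f t ∈ real C := by
    intro t ht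
    refine ⟨fun v => ?_, ?_, ?_⟩
    · have h0 : 0 ≤ bary M v := (bary_mem hne hM).1 v
      have h1 : (0 : ℝ) ≤ 1 - t := by linarith [ht.2]
      have h2 : (0 : ℝ) ≤ t := ht.1.le
      have h3 : (0 : ℝ) ≤ if v = w then 1 else 0 := by split_ifs <;> norm_num
      exact add_nonneg (mul_nonneg h1 h0) (mul_nonneg h2 h3)
    · simp only [f]
      rw [Finset.sum_add_distrib, ← Finset.mul_sum, ← Finset.mul_sum, (bary_mem hne hM).2.1]
      simp
    · have := hsupp t ht
      unfold supp at this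
      rw [this]; exact hMw
  -- extend to a function on ℝ
  have hclosed : f 0 = bary M := by
    funext v; simp [f]
  have hmem0 : f 0 ∈ real C := by rw [hclosed]; exact bary_mem hne hM
  have hcont : Continuous f := by
    apply continuous_pi; intro v
    exact ((continuous_const.sub continuous_id).mul continuous_const).add
      (continuous_id.mul continuous_const)
  -- preimage of V
  have hV' : IsOpen (g.symm ⁻¹' V) := hV.preimage g.symm.continuous
  rw [isOpen_induced_iff] at hV'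
  obtain ⟨W, hW, hWV⟩ := hV'
  have hW0 : f 0 ∈ W := by
    have : (⟨f 0, hmem0⟩ : real C) ∈ Subtype.val ⁻¹' W := by
      rw [hWV]
      show g.symm ⟨f 0, hmem0⟩ ∈ V
      have : (⟨f 0, hmem0⟩ : real C) = ⟨bary M, bary_mem hne hM⟩ := Subtype.ext hclosed
      rw [this]; exact hpV
    exact this
  have hopen : IsOpen (f ⁻¹' W) := hW.preimage hcont
  obtain ⟨ε, hε, hball⟩ := Metric.isOpen_iff.1 hopen 0 hW0
  set t := min (ε / 2) (1 / 2) with ht
  have ht0 : 0 < t := lt_min (by linarith) (by norm_num)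
  have ht1 : t < 1 := lt_of_le_of_lt (min_le_right _ _) (by norm_num)
  have htb : t ∈ Metric.ball (0 : ℝ) ε := by
    rw [Metric.mem_ball, Real.dist_eq, sub_zero, abs_of_pos ht0]
    exact lt_of_le_of_lt (min_le_left _ _) (by linarith)
  have htW : f t ∈ W := hball htb
  refine ⟨g.symm ⟨f t, hmem t ⟨ht0, ht1⟩⟩, ?_, ?_⟩
  · have : (⟨f t, hmem t ⟨ht0, ht1⟩⟩ : real C) ∈ g.symm ⁻¹' V := by
      rw [← hWV]; exact htW
    exact this
  · rw [Homeomorph.apply_symm_apply]
    exact hsupp t ⟨ht0, ht1⟩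

/-- F3 -/
theorem Equi.unique_up (h : Equi C D g) (h2 : T2Stmt) {M : Finset Vt} (hM : M ∈ C)
    {I' : Finset (ZMod 5)} (hI' : I'.Nonempty) (hs : I' ⊆ Lam D M) (hne : I' ≠ Lam D M)
    (hdim : ∀ H ∈ C, M ⊆ H → Lam D H = I' → H.card ≤ M.card + 1) {w₁ w₂ : Vt}
    (hw₁ : w₁ ∉ M) (hC₁ : insert w₁ M ∈ C) (hL₁ : Lam D (insert w₁ M) = I')
    (hw₂ : w₂ ∉ M) (hC₂ : insert w₂ M ∈ C) (hL₂ : Lam D (insert w₂ M) = I') : w₁ = w₂ := by
  have hp : h.pt hM ∈ B I' := by
    rw [mem_B_iff_forall]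
    intro i hi
    rw [← h.mem_Lam_supp, h.supp_pt hM]; exact hs hi
  obtain ⟨V, P, hV, hpV, hP, hVP, hPU⟩ := h2 I' hI' _ hp (h.star M) (h.isOpen_star M)
    (h.mem_star.2 (by rw [h.supp_pt hM]))
  -- structure of points of P
  have hstr : ∀ q ∈ P, ∃ w, w ∉ M ∧ supp (g q) = insert w M := by
    intro q hq
    obtain ⟨hq1, hq2⟩ := hPU hq
    have hsub := h.mem_star.1 hq1
    have hL := (h.mem_relB q).1 hq2
    have hcard := hdim (supp (g q)) (g q).2.2.2 hsub hL
    have hneq : M ≠ supp (g q) := by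
      intro he; rw [← he] at hL; exact hne hL.symm
    have hss : M ⊂ supp (g q) := lt_of_le_of_ne hsub hneq
    obtain ⟨w, hwM, hwi⟩ := Finset.ssubset_iff.1 hss
    refine ⟨w, hwM, ?_⟩
    symm
    apply Finset.eq_of_subset_of_card_le hwi
    rw [Finset.card_insert_of_notMem hwM]; exact hcard
  obtain ⟨q₁, hq₁V, hq₁⟩ := h.exists_near hM hw₁ hC₁ hV hpV
  obtain ⟨q₂, hq₂V, hq₂⟩ := h.exists_near hM hw₂ hC₂ hV hpV
  have hq₁P : q₁ ∈ P := hVP ⟨hq₁V, (h.mem_relB _).2 (by rw [hq₁]; exact hL₁)⟩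
  have hq₂P : q₂ ∈ P := hVP ⟨hq₂V, (h.mem_relB _).2 (by rw [hq₂]; exact hL₂)⟩
  by_contra hw
  -- two open sets
  let O₁ : Set CP4 := {p | (g p : Vt → ℝ) w₁ ≠ 0}
  let O₂ : Set CP4 := ⋃ w ∈ {w | w ∉ insert w₁ M}, {p | (g p : Vt → ℝ) w ≠ 0}
  have hO₁ : IsOpen O₁ := isOpen_ne_fun (continuous_coord g w₁) continuous_const
  have hO₂ : IsOpen O₂ := isOpen_biUnion fun w _ =>
    isOpen_ne_fun (continuous_coord g w) continuous_const
  have hcov : P ⊆ O₁ ∪ O₂ := by
    intro q hq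
    obtain ⟨w, hwM, hws⟩ := hstr q hq
    by_cases hww : w = w₁
    · left
      show (g q : Vt → ℝ) w₁ ≠ 0
      rw [← mem_supp, hws, ← hww]; exact Finset.mem_insert_self _ _
    · right
      simp only [O₂, Set.mem_iUnion, Set.mem_setOf_eq]
      refine ⟨w, ?_, ?_⟩
      · rw [Finset.mem_insert]; push_neg; exact ⟨hww, hwM⟩
      · rw [← mem_supp, hws]; exact Finset.mem_insert_self _ _
  have hn₁ : (P ∩ O₁).Nonempty := ⟨q₁, hq₁P, by
    show (g q₁ : Vt → ℝ) w₁ ≠ 0
    rw [← mem_supp, hq₁]; exact Finset.mem_insert_self _ _⟩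
  have hn₂ : (P ∩ O₂).Nonempty := by
    refine ⟨q₂, hq₂P, ?_⟩
    simp only [O₂, Set.mem_iUnion, Set.mem_setOf_eq]
    refine ⟨w₂, ?_, ?_⟩
    · rw [Finset.mem_insert]; push_neg; exact ⟨fun he => hw he.symm, hw₂⟩
    · rw [← mem_supp, hq₂]; exact Finset.mem_insert_self _ _
  obtain ⟨q, hqP, hqO₁, hqO₂⟩ := hP O₁ O₂ hO₁ hO₂ hcov hn₁ hn₂
  obtain ⟨w, hwM, hws⟩ := hstr q hqP
  simp only [O₂, Set.mem_iUnion, Set.mem_setOf_eq] at hqO₂
  obtain ⟨w', hw', hqw'⟩ := hqO₂
  have e1 : w₁ ∈ insert w M := by rw [← hws, mem_supp]; exact hqO₁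
  have e2 : w' ∈ insert w M := by rw [← hws, mem_supp]; exact hqw'
  rw [Finset.mem_insert] at e1 e2 hw'
  push_neg at hw'
  rcases e1 with e1 | e1
  · rcases e2 with e2 | e2
    · exact hw'.1 (e2.trans e1.symm)
    · exact hw'.2 e2
  · exact hw₁ e1

end Pool.H47.CP
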