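import Pool.Agent.H47.CP.Coc
import Pool.Agent.H44.CP.T34
import Pool.Agent.H44.CP.IntLin
import Pool.Agent.H50.CP.T1
import Pool.Agent.H50.CP.T2

/-! # No perfect equilibrium triangulation of `ℂP⁴` -/

set_option autoImplicit false

namespace Pool.H47.CP

variable {C : Set (Finset Vt)} {D : Finset (ZMod 5) → Set (Finset Vt)} {g : CP4 ≃ₜ real C}

/-- a nonzero cocycle vanishing on the prescribed coordinates -/
theorem exists_cocycle (h : Perf C D g) {J : Finset (ZMod 5)} (A : Finset (ZMod 5))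
    (hA : A.card + J.card ≤ 3) :
    ∃ N : ZMod 5 → ℤ, N ≠ 0 ∧ (∀ l ∈ A, N l = 0) ∧ Good (KK D) (PP D) J N := by
  have hJ : J ≠ Finset.univ := ne_univ_of_card (by omega)
  obtain ⟨j0, hj0⟩ := compl_nonempty hJ
  obtain ⟨N, hN, hind⟩ := cocycles h Pool.H44.CP.t3 Pool.H44.CP.t4 Pool.H48.CP.avg hJ hj0
  have hcard : ((Jᶜ).erase j0).card = 4 - J.card := by
    rw [Finset.card_erase_of_mem hj0, Finset.card_compl, ZMod.card]; omega
  obtain ⟨m, -, h2, h3⟩ := Pool.H44.CP.intLin ((Jᶜ).erase j0) N A (by rw [hcard]; omega) hind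
  exact ⟨_, h3, h2, good_sum _ m N hN⟩

theorem main (h : Perf C D g) : False := by
  refine core (h.ks Pool.H50.CP.t1 Pool.H50.CP.t2 (fun j a b => ?_) (fun J a hJ => ?_) (fun J hJ => ?_))
  · obtain ⟨N, h1, h2, h3⟩ := exists_cocycle h (J := {j}) {a, b} (by
      have : ({a, b} : Finset (ZMod 5)).card ≤ 2 := Finset.card_le_two
      rw [Finset.card_singleton]; omega)
    exact ⟨N, h1, h2 a (by simp), h2 b (by simp), h3⟩
  · obtain ⟨N, h1, h2, h3⟩ := exists_cocycle h (J := J) {a} (by rw [Finset.card_singleton]; omega)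
    exact ⟨N, h1, h2 a (by simp), h3⟩
  · obtain ⟨N, h1, -, h3⟩ := exists_cocycle h (J := J) ∅ (by rw [Finset.card_empty]; omega)
    exact ⟨N, h1, h3⟩

end Pool.H47.CP
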